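import Mathlib
import Pool.Agent.Results.MP_d1698a_pr.HeightScales

open MeasureTheory ProbabilityTheory Filter
open scoped ENNReal Topology

namespace Pool.Agent.Y971.HG

open Pool.Agent.Results.MP_d1698a_pr.HeightScales

noncomputable section

/-- the tree with one vertex -/
def leaf : PT := WType.mk 0 (fun i => i.elim0)

/-- replace the subtree at the word `u` by a vertex with `k` children, the first one carrying this
subtree, the other ones leaves -/
def ins (k : ℕ) : List ℕ → PT → PT
  | [], t => WType.mk k (fun i => if i.1 = 0 then t else leaf)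
  | (i :: w), WType.mk j c => WType.mk j (fun l => if l.1 = i then ins k w (c l) else c l)

/-- the inverse operation -/
def del : List ℕ → PT → PT
  | [], WType.mk j c => if h : 0 < j then c ⟨0, h⟩ else leaf
  | (i :: w), WType.mk j c => WType.mk j (fun l => if l.1 = i then del w (c l) else c l)

lemma del_ins (k : ℕ) (hk : 0 < k) : ∀ (u : List ℕ) (t : PT), del u (ins k u t) = t := by
  intro u
  induction u with
  | nil => intro t; simp [ins, del, hk]
  | cons i w ih =>
    intro t
    cases t with
    | mk j c =>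
      simp only [ins, del]
      congr 1
      funext l
      by_cases h : l.1 = i
      · simp [h, ih]
      · simp [h]

lemma mem_ins (k : ℕ) : ∀ (u : List ℕ) (t : PT), u ∈ nodes t → u ∈ nodes (ins k u t) := by
  intro u
  induction u with
  | nil => intro t _; simp [ins, nodes]
  | cons i w ih =>
    intro t
    cases t with
    | mk j c =>
      simp only [ins]
      rw [mem_nodes_mk, mem_nodes_mk]
      rintro (h | ⟨l, w', hw, h⟩)
      · exact absurd h (by simp)
      · right
        simp only [List.cons.injEq] at h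
        obtain ⟨h1, h2⟩ := h
        refine ⟨l, w, ?_, by rw [h1]⟩
        rw [if_pos h1.symm]
        subst h2
        exact ih _ hw

lemma sz_leaf : sz leaf = 1 := by simp [leaf, sz]

lemma wt_leaf (μ : ℕ → ℝ≥0∞) : wt μ leaf = μ 0 := by simp [leaf, wt]

lemma ht_leaf : ht leaf = 0 := by simp [leaf, ht]

lemma sz_ins (k : ℕ) : ∀ (u : List ℕ) (t : PT), u ∈ nodes t → sz (ins (k + 1) u t) = sz t + (k + 1) := by
  intro u
  induction u with
  | nil =>
    intro t _
    simp only [ins]
    rw [sz, Fin.sum_univ_succ]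
    simp [sz_leaf]
    omega
  | cons i w ih =>
    intro t
    cases t with
    | mk j c =>
      rw [mem_nodes_mk]
      rintro (h | ⟨l, w', hw, h⟩)
      · exact absurd h (by simp)
      · simp only [List.cons.injEq] at h
        obtain ⟨h1, h2⟩ := h
        subst h2
        simp only [ins, sz]
        have h3 : ∀ l' : Fin j, sz (if l'.1 = i then ins (k + 1) w (c l') else c l') =
            sz (c l') + (if l' = l then (k + 1) else 0) := by
          intro l'
          by_cases h4 : l' = l
          · subst h4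
            rw [if_pos h1.symm, if_pos rfl, ih _ hw]
          · rw [if_neg (by rw [h1]; exact fun h5 => h4 (Fin.ext h5)), if_neg h4]
            simp
        simp only [h3, Finset.sum_add_distrib, Finset.sum_ite_eq', Finset.mem_univ, if_true]
        omega

lemma wt_ins (μ : ℕ → ℝ≥0∞) (k : ℕ) : ∀ (u : List ℕ) (t : PT), u ∈ nodes t →
    wt μ (ins (k + 1) u t) = μ (k + 1) * μ 0 ^ k * wt μ t := by
  intro u
  induction u with
  | nil =>
    intro t _
    simp only [ins]
    rw [wt, Fin.prod_univ_succ]
    simp [wt_leaf]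
    ring
  | cons i w ih =>
    intro t
    cases t with
    | mk j c =>
      rw [mem_nodes_mk]
      rintro (h | ⟨l, w', hw, h⟩)
      · exact absurd h (by simp)
      · simp only [List.cons.injEq] at h
        obtain ⟨h1, h2⟩ := h
        subst h2
        simp only [ins, wt]
        have h3 : ∀ l' : Fin j, wt μ (if l'.1 = i then ins (k + 1) w (c l') else c l') =
            (if l' = l then (μ (k + 1) * μ 0 ^ k) else 1) * wt μ (c l') := by
          intro l'
          by_cases h4 : l' = l
          · subst h4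
            rw [if_pos h1.symm, if_pos rfl, ih _ hw]
          · rw [if_neg (by rw [h1]; exact fun h5 => h4 (Fin.ext h5)), if_neg h4]
            simp
        simp only [h3, Finset.prod_mul_distrib, Finset.prod_ite_eq', Finset.mem_univ, if_true]
        ring

lemma ht_le_ins (k : ℕ) : ∀ (u : List ℕ) (t : PT),
    ht t ≤ ht (ins (k + 1) u t) ∧ ht (ins (k + 1) u t) ≤ ht t + 1 := by
  intro u
  induction u with
  | nil =>
    intro t
    simp only [ins]
    rw [ht]
    constructor
    · have := Finset.le_sup (f := fun i : Fin (k + 1) => ht (if i.1 = 0 then t else leaf) + 1)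
        (Finset.mem_univ (0 : Fin (k + 1)))
      simp only [Fin.val_zero, if_true] at this
      omega
    · apply Finset.sup_le
      intro i _
      by_cases h : i.1 = 0
      · rw [if_pos h]
      · rw [if_neg h, ht_leaf]; omega
  | cons i w ih =>
    intro t
    cases t with
    | mk j c =>
      simp only [ins]
      constructor
      · rw [ht, ht]
        apply Finset.sup_le
        intro l _
        refine le_trans ?_ (Finset.le_sup (f := fun l : Fin j =>
          ht (if l.1 = i then ins (k + 1) w (c l) else c l) + 1) (Finset.mem_univ l))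
        by_cases h : l.1 = i
        · simp only [h, if_true]; have := (ih (c l)).1; omega
        · simp only [h, if_false]; exact le_rfl
      · rw [ht, ht]
        apply Finset.sup_le
        intro l _
        have h0 : ht (c l) + 1 ≤ Finset.univ.sup (fun l : Fin j => ht (c l) + 1) :=
          Finset.le_sup (f := fun l : Fin j => ht (c l) + 1) (Finset.mem_univ l)
        by_cases h : l.1 = i
        · simp only [h, if_true]; have := (ih (c l)).2; omega
        · simp only [h, if_false]; omega

/-- marked trees -/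
abbrev MT : Type := {x : PT × List ℕ // x.2 ∈ nodes x.1}

lemma tsum_marked (F : PT → ℝ≥0∞) : ∑' x : MT, F x.1.1 = ∑' t : PT, (sz t : ℝ≥0∞) * F t := by
  have h1 : ∑' x : MT, F x.1.1 = ∑' y : (Σ t : PT, {u : List ℕ // u ∈ nodes t}), F y.1 := by
    let e : (Σ t : PT, {u : List ℕ // u ∈ nodes t}) ≃ MT :=
      { toFun := fun y => ⟨(y.1, y.2.1), y.2.2⟩
        invFun := fun x => ⟨x.1.1, ⟨x.1.2, x.2⟩⟩
        left_inv := fun y => rfl
        right_inv := fun x => rfl }
    rw [← e.tsum_eq]
    rfl
  rw [h1, ENNReal.tsum_sigma']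
  apply tsum_congr
  intro t
  simp only
  rw [tsum_fintype, Finset.sum_const, nsmul_eq_mul]
  congr 2
  rw [Finset.card_univ, Fintype.card_coe, card_nodes]

lemma graft (μ : PMF ℕ) (k n : ℕ) (p p' : ℕ → Prop)
    (hp : ∀ x y, p x → x ≤ y → y ≤ x + 1 → p' y) :
    (μ (k + 1) * μ 0 ^ k) * ((n : ℝ≥0∞) * gwLaw μ (sizeEvent n ∩ {ξ | p (height ξ)})) ≤
      ((n + (k + 1) : ℕ) : ℝ≥0∞) * gwLaw μ (sizeEvent (n + (k + 1)) ∩ {ξ | p' (height ξ)}) := by
  classical
  rw [law_eq, law_eq, tsum_sub (fun t => sz t = n ∧ p (ht t)) (fun t => wt μ t),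
    tsum_sub (fun t => sz t = n + (k + 1) ∧ p' (ht t)) (fun t => wt μ t)]
  set A : PT → ℝ≥0∞ := Set.indicator {t | sz t = n ∧ p (ht t)} (fun t => wt μ t) with hA
  set B : PT → ℝ≥0∞ := Set.indicator {t | sz t = n + (k + 1) ∧ p' (ht t)} (fun t => wt μ t) with hB
  have hA' : (n : ℝ≥0∞) * ∑' t, A t = ∑' x : MT, A x.1.1 := by
    rw [tsum_marked, ← ENNReal.tsum_mul_left]
    apply tsum_congr
    intro t
    by_cases h : sz t = n ∧ p (ht t)
    · rw [h.1]
    · have : A t = 0 := Set.indicator_of_notMem (s := {t | sz t = n ∧ p (ht t)}) h _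
      rw [this]; simp
  have hB' : ((n + (k + 1) : ℕ) : ℝ≥0∞) * ∑' t, B t = ∑' x : MT, B x.1.1 := by
    rw [tsum_marked, ← ENNReal.tsum_mul_left]
    apply tsum_congr
    intro t
    by_cases h : sz t = n + (k + 1) ∧ p' (ht t)
    · rw [h.1]
    · have : B t = 0 :=
        Set.indicator_of_notMem (s := {t | sz t = n + (k + 1) ∧ p' (ht t)}) h _
      rw [this]; simp
  rw [hA', hB', ← ENNReal.tsum_mul_left]
  let φ : MT → MT := fun x => ⟨(ins (k + 1) x.1.2 x.1.1, x.1.2), mem_ins _ _ _ x.2⟩
  have hφ : Function.Injective φ := by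
    intro x y hxy
    have h1 := congrArg (fun z : MT => z.1.1) hxy
    have h2 := congrArg (fun z : MT => z.1.2) hxy
    simp only [φ] at h1 h2
    have h3 : del x.1.2 (ins (k + 1) x.1.2 x.1.1) = del y.1.2 (ins (k + 1) y.1.2 y.1.1) := by
      rw [h1, h2]
    rw [del_ins _ (Nat.succ_pos k), del_ins _ (Nat.succ_pos k)] at h3
    exact Subtype.ext (Prod.ext h3 h2)
  refine le_trans ?_ (ENNReal.tsum_comp_le_tsum_of_injective hφ (fun x : MT => B x.1.1))
  apply ENNReal.tsum_le_tsum
  intro x
  by_cases h : sz x.1.1 = n ∧ p (ht x.1.1)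
  · have e1 : A x.1.1 = wt μ x.1.1 := Set.indicator_of_mem (s := {t | sz t = n ∧ p (ht t)}) h _
    have hm : sz (ins (k + 1) x.1.2 x.1.1) = n + (k + 1) ∧ p' (ht (ins (k + 1) x.1.2 x.1.1)) := by
      refine ⟨by rw [sz_ins _ _ _ x.2, h.1], ?_⟩
      have := ht_le_ins k x.1.2 x.1.1
      exact hp _ _ h.2 this.1 this.2
    have e2 : B (φ x).1.1 = wt μ (ins (k + 1) x.1.2 x.1.1) :=
      Set.indicator_of_mem (s := {t | sz t = n + (k + 1) ∧ p' (ht t)}) hm _
    change _ ≤ B (φ x).1.1
    rw [e1, e2, wt_ins _ _ _ _ x.2]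
  · have e1 : A x.1.1 = 0 := Set.indicator_of_notMem (s := {t | sz t = n ∧ p (ht t)}) h _
    rw [e1]; simp

end

end Pool.Agent.Y971.HG
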