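import Mathlib
import Pool.Agent.Y971.HG.Graft

open MeasureTheory ProbabilityTheory Filter
open scoped ENNReal Topology

namespace Pool.Agent.Y971.HG

open Pool.Agent.Results.MP_d1698a_pr.HeightScales

noncomputable section

/-- real probabilities -/
def PR (μ : PMF ℕ) (n : ℕ) (p : ℕ → Prop) : ℝ :=
  (gwLaw μ (sizeEvent n ∩ {ξ | p (height ξ)})).toReal

/-- probability of having `n` vertices -/
def U (μ : PMF ℕ) (n : ℕ) : ℝ := (gwLaw μ (sizeEvent n)).toReal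

lemma U_nonneg (μ : PMF ℕ) (n : ℕ) : 0 ≤ U μ n := ENNReal.toReal_nonneg

lemma U_le_one (μ : PMF ℕ) (n : ℕ) : U μ n ≤ 1 := by
  unfold U
  have : gwLaw μ (sizeEvent n) ≤ 1 := prob_le_one
  exact ENNReal.toReal_le_of_le_ofReal zero_le_one (by simpa using this)

lemma meas_size (n : ℕ) : MeasurableSet (sizeEvent n) := by
  have := measurableSet_sizeEvent n (fun _ => True)
  simpa using this

lemma U_pos_iff (μ : PMF ℕ) (n : ℕ) : 0 < U μ n ↔ 0 < gwLaw μ (sizeEvent n) := by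
  unfold U
  rw [ENNReal.toReal_pos_iff]
  exact ⟨fun h => h.1, fun h => ⟨h, measure_lt_top _ _⟩⟩

/-- the constant of the comparison -/
def bb (μ : PMF ℕ) (k : ℕ) : ℝ := (μ (k + 1)).toReal * (μ 0).toReal ^ k / (k + 2)

lemma bb_pos (μ : PMF ℕ) (k : ℕ) (h0 : μ 0 ≠ 0) (hk : μ (k + 1) ≠ 0) : 0 < bb μ k := by
  unfold bb
  have h1 : 0 < (μ (k + 1)).toReal := ENNReal.toReal_pos hk (PMF.apply_ne_top μ _)
  have h2 : 0 < (μ 0).toReal := ENNReal.toReal_pos h0 (PMF.apply_ne_top μ _)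
  positivity

lemma toReal_le_one (μ : PMF ℕ) (j : ℕ) : (μ j).toReal ≤ 1 :=
  ENNReal.toReal_le_of_le_ofReal zero_le_one (by simpa using PMF.coe_le_one μ j)

lemma bb_le_one (μ : PMF ℕ) (k : ℕ) : bb μ k ≤ 1 := by
  unfold bb
  rw [div_le_one (by positivity)]
  have h1 := toReal_le_one μ (k + 1)
  have h2 := toReal_le_one μ 0
  have h3 : (μ 0).toReal ^ k ≤ 1 := pow_le_one₀ ENNReal.toReal_nonneg h2
  have h4 : (μ (k + 1)).toReal * (μ 0).toReal ^ k ≤ 1 :=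
    mul_le_one₀ h1 (by positivity) h3
  have : (0 : ℝ) ≤ k := Nat.cast_nonneg k
  linarith

lemma graft_real (μ : PMF ℕ) (k n : ℕ) (hn : 1 ≤ n) (p p' : ℕ → Prop)
    (hp : ∀ x y, p x → x ≤ y → y ≤ x + 1 → p' y) :
    bb μ k * PR μ n p ≤ PR μ (n + (k + 1)) p' := by
  have h := graft μ k n p p' hp
  have h2 := ENNReal.toReal_mono (by
    refine ENNReal.mul_ne_top (ENNReal.natCast_ne_top _) (measure_ne_top _ _)) h
  simp only [ENNReal.toReal_mul, ENNReal.toReal_pow, ENNReal.toReal_natCast] at h2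
  change _ * ((n : ℝ) * PR μ n p) ≤ _ * PR μ (n + (k + 1)) p' at h2
  have hn' : (1 : ℝ) ≤ n := by exact_mod_cast hn
  have hk' : (0 : ℝ) ≤ k := Nat.cast_nonneg k
  have hP' : 0 ≤ PR μ (n + (k + 1)) p' := ENNReal.toReal_nonneg
  have h3 : ((n + (k + 1) : ℕ) : ℝ) ≤ (k + 2) * n := by
    push_cast
    nlinarith
  have h4 : (μ (k + 1)).toReal * (μ 0).toReal ^ k * ((n : ℝ) * PR μ n p) ≤
      ((k + 2) * n) * PR μ (n + (k + 1)) p' := le_trans h2 (mul_le_mul_of_nonneg_right h3 hP')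
  have h5 : (n : ℝ) * ((μ (k + 1)).toReal * (μ 0).toReal ^ k * PR μ n p) ≤
      n * ((k + 2) * PR μ (n + (k + 1)) p') := by nlinarith
  have h6 := le_of_mul_le_mul_left h5 (by linarith)
  unfold bb
  rw [div_mul_eq_mul_div, div_le_iff₀ (by positivity)]
  linarith

lemma U_step (μ : PMF ℕ) (k n : ℕ) (hn : 1 ≤ n) : bb μ k * U μ n ≤ U μ (n + (k + 1)) := by
  have := graft_real μ k n hn (fun _ => True) (fun _ => True) (fun _ _ _ _ _ => trivial)
  simpa [PR, U] using this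

lemma PR_mono (μ : PMF ℕ) (n : ℕ) (p q : ℕ → Prop) (h : ∀ x, p x → q x) : PR μ n p ≤ PR μ n q := by
  unfold PR
  refine ENNReal.toReal_mono (measure_ne_top _ _) (measure_mono ?_)
  exact Set.inter_subset_inter_right _ (fun ξ hξ => h _ hξ)

lemma PR_compl (μ : PMF ℕ) (n : ℕ) (p : ℕ → Prop) : U μ n ≤ PR μ n p + PR μ n (fun x => ¬ p x) := by
  unfold U PR
  rw [← ENNReal.toReal_add (measure_ne_top _ _) (measure_ne_top _ _)]
  refine ENNReal.toReal_mono (ENNReal.add_ne_top.2 ⟨measure_ne_top _ _, measure_ne_top _ _⟩) ?_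
  refine le_trans (measure_mono ?_) (measure_union_le _ _)
  intro ξ hξ
  by_cases h : p (height ξ)
  · exact Or.inl ⟨hξ, h⟩
  · exact Or.inr ⟨hξ, h⟩

lemma PR_lt (μ : PMF ℕ) (n : ℕ) (p : ℕ → Prop) (hU : 0 < U μ n) (r : ℝ)
    (h : condLaw μ n {ξ | p (height ξ)} < ENNReal.ofReal r) : PR μ n p < r * U μ n := by
  have hr : 0 < r := by
    by_contra h0
    rw [ENNReal.ofReal_of_nonpos (not_lt.1 h0)] at h
    exact absurd h (by simp)
  rw [condLaw, cond_apply (meas_size n)] at h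
  have h2 : ((gwLaw μ (sizeEvent n))⁻¹ * gwLaw μ (sizeEvent n ∩ {ξ | p (height ξ)})).toReal < r := by
    rw [← ENNReal.toReal_ofReal hr.le]
    exact (ENNReal.toReal_lt_toReal (ne_top_of_lt h) ENNReal.ofReal_ne_top).2 h
  rw [ENNReal.toReal_mul, ENNReal.toReal_inv] at h2
  change (U μ n)⁻¹ * PR μ n p < r at h2
  rw [inv_mul_eq_div, div_lt_iff₀ hU] at h2
  exact h2

lemma exists_close (μ : PMF ℕ) (k n : ℕ) (hn : 1 ≤ n) (hb : 0 < bb μ k) (K : ℝ) (hK : 1 ≤ K)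
    (hU : 0 < U μ n) (hUK : U μ (n + (k + 1)) ≤ K * U μ n) (p q : ℕ → Prop)
    (h1 : condLaw μ n {ξ | ¬ p (height ξ)} < ENNReal.ofReal (bb μ k / (2 * K)))
    (h2 : condLaw μ (n + (k + 1)) {ξ | ¬ q (height ξ)} < ENNReal.ofReal (bb μ k / (2 * K))) :
    ∃ x y : ℕ, p x ∧ q y ∧ x ≤ y ∧ y ≤ x + 1 := by
  by_contra hcon
  push Not at hcon
  have hU' : 0 < U μ (n + (k + 1)) := lt_of_lt_of_le (mul_pos hb hU) (U_step μ k n hn)
  have a1 := PR_lt μ n (fun x => ¬ p x) hU _ h1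
  have a2 := PR_lt μ (n + (k + 1)) (fun x => ¬ q x) hU' _ h2
  have a3 := PR_compl μ n p
  have a4 := graft_real μ k n hn p (fun y => ∃ x, p x ∧ x ≤ y ∧ y ≤ x + 1)
    (fun x y hx hxy hyx => ⟨x, hx, hxy, hyx⟩)
  have a5 : PR μ (n + (k + 1)) (fun y => ∃ x, p x ∧ x ≤ y ∧ y ≤ x + 1) ≤
      PR μ (n + (k + 1)) (fun x => ¬ q x) := by
    apply PR_mono
    rintro y ⟨x, hx, hxy, hyx⟩ hq
    have := hcon x y hx hq hxy
    omega
  have hb1 := bb_le_one μ k
  have e1 : bb μ k / (2 * K) ≤ 1 / 2 := by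
    rw [div_le_div_iff₀ (by positivity) (by norm_num)]
    nlinarith
  have e2 : bb μ k / (2 * K) * U μ (n + (k + 1)) ≤ bb μ k / 2 * U μ n := by
    have : bb μ k / (2 * K) * U μ (n + (k + 1)) ≤ bb μ k / (2 * K) * (K * U μ n) :=
      mul_le_mul_of_nonneg_left hUK (by positivity)
    have h9 : bb μ k / (2 * K) * (K * U μ n) = bb μ k / 2 * U μ n := by
      field_simp
    linarith
  have e3 : bb μ k / (2 * K) * U μ n ≤ 1 / 2 * U μ n := mul_le_mul_of_nonneg_right e1 hU.le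
  have e4 : U μ n / 2 < PR μ n p := by linarith
  have e5 : bb μ k * (U μ n / 2) < bb μ k * PR μ n p := mul_lt_mul_of_pos_left e4 hb
  linarith

end

end Pool.Agent.Y971.HG
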