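import Mathlib
import Pool.Agent.Y971.HG.Step

open MeasureTheory ProbabilityTheory Filter
open scoped ENNReal Topology

namespace Pool.Agent.Y971.HG

open Pool.Agent.Results.MP_d1698a_pr.HeightScales

noncomputable section

lemma crit_two {μ : PMF ℕ} (h : IsCritical μ) : ∃ k : ℕ, 2 ≤ k ∧ μ k ≠ 0 := by
  by_contra hcon
  push Not at hcon
  have h1 : ∑' k : ℕ, (k : ℝ≥0∞) * μ k = μ 1 := by
    rw [tsum_eq_single 1]
    · simp
    · intro b hb
      rcases Nat.lt_or_ge b 2 with h2 | h2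
      · have : b = 0 := by omega
        subst this
        simp
      · rw [hcon b h2, mul_zero]
  have h2 := h.1
  rw [h1] at h2
  exact absurd h.2 (by rw [h2]; exact lt_irrefl _)

lemma crit_zero {μ : PMF ℕ} (h : IsCritical μ) : μ 0 ≠ 0 := by
  intro h0
  obtain ⟨k, hk, hk0⟩ := crit_two h
  have h1 : ∑' j : ℕ, μ j < ∑' j : ℕ, (j : ℝ≥0∞) * μ j := by
    refine ENNReal.tsum_lt_tsum (i := k) ?_ ?_ ?_
    · rw [PMF.tsum_coe]; exact ENNReal.one_ne_top
    · intro j
      rcases Nat.eq_zero_or_pos j with h2 | h2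
      · subst h2; simp [h0]
      · calc μ j = 1 * μ j := (one_mul _).symm
          _ ≤ (j : ℝ≥0∞) * μ j := mul_le_mul_left (by exact_mod_cast h2) _
    · calc μ k = 1 * μ k := (one_mul _).symm
        _ < (k : ℝ≥0∞) * μ k := by
          refine ENNReal.mul_lt_mul_left hk0 (PMF.apply_ne_top μ k) ?_
          exact_mod_cast hk
  rw [PMF.tsum_coe, h.1] at h1
  exact lt_irrefl _ h1

lemma size_one {μ : PMF ℕ} (h0 : μ 0 ≠ 0) : 0 < gwLaw μ (sizeEvent 1) := by
  have h := law_eq μ 1 (fun _ => True)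
  simp only [Set.ofPred_true, Set.inter_univ] at h
  rw [h]
  have h2 : wt μ leaf ≤ ∑' t : {t : PT // sz t = 1 ∧ True}, wt μ t.1 :=
    ENNReal.le_tsum (⟨leaf, sz_leaf, trivial⟩ : {t : PT // sz t = 1 ∧ True})
  rw [wt_leaf] at h2
  exact lt_of_lt_of_le (pos_iff_ne_zero.2 h0) h2

/-! counting -/

lemma count_aux (x : ℕ → ℝ) (b K : ℝ) (hb : 0 < b) (hb1 : b ≤ 1) (hK : 1 ≤ K)
    (hx : ∀ m, 0 < x m) (hstep : ∀ m, b * x m ≤ x (m + 1)) (M : ℕ) :
    K ^ ((Finset.range M).filter (fun m => K * x m < x (m + 1))).card * b ^ M * x 0 ≤ x M := by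
  induction M with
  | zero => simp
  | succ M ih =>
    rw [Finset.range_add_one, Finset.filter_insert]
    by_cases h : K * x M < x (M + 1)
    · rw [if_pos h, Finset.card_insert_of_notMem (by simp), pow_succ, pow_succ]
      have h1 : 0 ≤ K ^ ((Finset.range M).filter (fun m => K * x m < x (m + 1))).card * b ^ M * x 0 := by
        have := (hx 0).le
        positivity
      calc _ = (K * b) * (K ^ ((Finset.range M).filter (fun m => K * x m < x (m + 1))).card * b ^ M * x 0) := by
            ring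
        _ ≤ (K * 1) * x M := by
            apply mul_le_mul _ ih h1 (by positivity)
            exact mul_le_mul_of_nonneg_left hb1 (by positivity)
        _ ≤ x (M + 1) := by linarith
    · rw [if_neg h, pow_succ]
      calc _ = b * (K ^ ((Finset.range M).filter (fun m => K * x m < x (m + 1))).card * b ^ M * x 0) := by
            ring
        _ ≤ b * x M := mul_le_mul_of_nonneg_left ih hb.le
        _ ≤ x (M + 1) := hstep M

lemma count_log (x : ℕ → ℝ) (b K : ℝ) (hb : 0 < b) (hb1 : b ≤ 1) (hK : 1 ≤ K)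
    (hx : ∀ m, 0 < x m) (hx1 : ∀ m, x m ≤ 1) (hstep : ∀ m, b * x m ≤ x (m + 1)) (M : ℕ) :
    (((Finset.range M).filter (fun m => K * x m < x (m + 1))).card : ℝ) * Real.log K ≤
      M * (- Real.log b) + (- Real.log (x 0)) := by
  have h := (count_aux x b K hb hb1 hK hx hstep M).trans (hx1 M)
  have hx0 := hx 0
  have hK0 : 0 < K := by linarith
  have h2 := Real.log_le_log (by positivity) h
  rw [Real.log_one, Real.log_mul (by positivity) (by positivity),
    Real.log_mul (by positivity) (by positivity), Real.log_pow, Real.log_pow] at h2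
  linarith

lemma density_zero (x : ℕ → ℝ) (b : ℝ) (hb : 0 < b) (hb1 : b ≤ 1)
    (hx : ∀ m, 0 < x m) (hx1 : ∀ m, x m ≤ 1) (hstep : ∀ m, b * x m ≤ x (m + 1))
    (E : ℕ → Prop) [DecidablePred E]
    (hE : ∀ K : ℝ, 1 ≤ K → ∃ N : ℕ, ∀ m, N ≤ m → E m → K * x m < x (m + 1)) :
    Tendsto (fun M : ℕ => (((Finset.range M).filter E).card : ℝ) / M) atTop (𝓝 0) := by
  have hlb : 0 ≤ - Real.log b := by
    have := Real.log_nonpos hb.le hb1
    linarith
  rw [Metric.tendsto_atTop]
  intro η hη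
  set a : ℝ := 2 * (- Real.log b) / η + 1 with ha
  have ha1 : 1 ≤ a := by
    have : 0 ≤ 2 * (- Real.log b) / η := by positivity
    linarith
  have hK : (1 : ℝ) ≤ Real.exp a := Real.one_le_exp (by linarith)
  obtain ⟨N, hN⟩ := hE (Real.exp a) hK
  set C : ℝ := N + (- Real.log (x 0)) with hC
  have hlx : 0 ≤ - Real.log (x 0) := by
    have := Real.log_nonpos (hx 0).le (hx1 0)
    linarith
  have hC0 : 0 ≤ C := by positivity
  obtain ⟨M0, hM0⟩ := exists_nat_gt (2 * C / η)
  refine ⟨M0 + 1, fun M hM => ?_⟩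
  have hMpos : (0 : ℝ) < M := by
    have : 1 ≤ M := by omega
    exact_mod_cast this
  rw [Real.dist_eq, sub_zero, abs_of_nonneg (by positivity), div_lt_iff₀ hMpos]
  have h1 : ((Finset.range M).filter E).card ≤ N +
      ((Finset.range M).filter (fun m => Real.exp a * x m < x (m + 1))).card := by
    have h2 : (Finset.range M).filter E ⊆ Finset.range N ∪
        (Finset.range M).filter (fun m => Real.exp a * x m < x (m + 1)) := by
      intro m hm
      rw [Finset.mem_filter] at hm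
      rw [Finset.mem_union, Finset.mem_filter]
      rcases Nat.lt_or_ge m N with h3 | h3
      · exact Or.inl (Finset.mem_range.2 h3)
      · exact Or.inr ⟨hm.1, hN m h3 hm.2⟩
    refine (Finset.card_le_card h2).trans ((Finset.card_union_le _ _).trans ?_)
    rw [Finset.card_range]
  have h3 := count_log x b (Real.exp a) hb hb1 hK hx hx1 hstep M
  rw [Real.log_exp] at h3
  set cnt : ℝ := (((Finset.range M).filter (fun m => Real.exp a * x m < x (m + 1))).card : ℝ) with hcnt
  have hcnt0 : 0 ≤ cnt := Nat.cast_nonneg _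
  have h4 : (((Finset.range M).filter E).card : ℝ) ≤ N + cnt := by
    rw [hcnt]; exact_mod_cast h1
  -- cnt ≤ η / 2 * M + (- log x0)
  have h5 : cnt ≤ η / 2 * M + (- Real.log (x 0)) := by
    have h6 : - Real.log b ≤ η / 2 * a := by
      rw [ha]
      have : η / 2 * (2 * (- Real.log b) / η + 1) = - Real.log b + η / 2 := by
        field_simp
      rw [this]; linarith
    have h7 : cnt * a ≤ (η / 2 * M + (- Real.log (x 0))) * a := by
      have h8 : (M : ℝ) * (- Real.log b) ≤ M * (η / 2 * a) := mul_le_mul_of_nonneg_left h6 hMpos.le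
      have h9 : (- Real.log (x 0)) * 1 ≤ (- Real.log (x 0)) * a := mul_le_mul_of_nonneg_left ha1 hlx
      nlinarith
    exact le_of_mul_le_mul_right h7 (by linarith)
  have h10 : 2 * C / η < M := hM0.trans (by exact_mod_cast (by omega : M0 < M))
  rw [div_lt_iff₀ hη] at h10
  have : C < η / 2 * M := by linarith
  rw [hC] at this
  linarith

/-! the step, analysis -/

/-- `H(T_n) / (f n * log n)` tends to `c` in probability, along the `n` for which `T_n` is
defined (`condLaw μ n` is the zero measure for the other ones). -/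
def HeightConverges (μ : PMF ℕ) (f : ℕ → ℝ) (c : ℝ) : Prop :=
  ∀ δ : ℝ, 0 < δ →
    Tendsto (fun n : ℕ => condLaw μ n {ξ | δ < |(height ξ : ℝ) / (f n * Real.log n) - c|})
      atTop (𝓝 0)

lemma step_close {μ : PMF ℕ} {f : ℕ → ℝ} {c : ℝ} (hc : 0 < c)
    (hpos : ∀ n : ℕ, 1 ≤ n → 0 < f n) (hf : Tendsto f atTop atTop) (hcv : HeightConverges μ f c)
    (k : ℕ) (hb : 0 < bb μ k) (K : ℝ) (hK : 1 ≤ K) (ε : ℝ) (hε : 0 < ε) :
    ∃ N : ℕ, ∀ n, N ≤ n → 0 < U μ n → U μ (n + (k + 1)) ≤ K * U μ n →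
      |f (n + (k + 1)) / f n - 1| < ε := by
  set δ : ℝ := ε * c / (4 + ε + c) with hδ
  have hδ0 : 0 < δ := by positivity
  have hδc : δ * (4 + ε + c) = ε * c := by
    rw [hδ]; field_simp
  have hδ1 : δ < c := by nlinarith
  have hδ2 : c + 2 * δ < (1 + ε) * (c - δ) := by nlinarith
  have hδ3 : (1 - ε) * (c + δ) < (1 - δ) * (c - δ) := by nlinarith
  have hr : (0 : ℝ≥0∞) < ENNReal.ofReal (bb μ k / (2 * K)) := by
    rw [ENNReal.ofReal_pos]; positivity
  have e1 := (hcv δ hδ0).eventually (gt_mem_nhds hr)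
  have e2 := (tendsto_add_atTop_nat (k + 1)).eventually e1
  have e3 : ∀ᶠ n : ℕ in atTop, 1 / δ ≤ f n := hf.eventually_ge_atTop _
  have hlog : Tendsto (fun n : ℕ => Real.log n) atTop atTop :=
    Real.tendsto_log_atTop.comp tendsto_natCast_atTop_atTop
  have e4 : ∀ᶠ n : ℕ in atTop, 1 ≤ Real.log n := hlog.eventually_ge_atTop 1
  have e5 : ∀ᶠ n : ℕ in atTop, Real.log (k + 2) / δ ≤ Real.log n := hlog.eventually_ge_atTop _
  obtain ⟨N, hN⟩ := eventually_atTop.1 (e1.and (e2.and (e3.and (e4.and (e5.and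
    (eventually_ge_atTop 1))))))
  refine ⟨N, fun n hn hU hUK => ?_⟩
  obtain ⟨a1, a2, a3, a4, a5, a6⟩ := hN n hn
  obtain ⟨x, y, hx, hy, hxy, hyx⟩ := exists_close μ k n a6 hb K hK hU hUK
    (fun x => ¬ δ < |(x : ℝ) / (f n * Real.log n) - c|)
    (fun y => ¬ δ < |(y : ℝ) / (f (n + (k + 1)) * Real.log ((n + (k + 1) : ℕ) : ℝ)) - c|)
    (by simpa using a1) (by simpa using a2)
  simp only [not_lt] at hx hy
  have hfn := hpos n a6
  have hfn' := hpos (n + (k + 1)) (by omega)
  set L : ℝ := Real.log n with hL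
  set L' : ℝ := Real.log ((n + (k + 1) : ℕ) : ℝ) with hL'
  have hn1 : (1 : ℝ) ≤ n := by exact_mod_cast a6
  have hk0 : (0 : ℝ) ≤ k := Nat.cast_nonneg k
  have hLL : L ≤ L' := by
    rw [hL, hL']
    apply Real.log_le_log (by linarith)
    push_cast; linarith
  have hLL' : L' ≤ L + Real.log (k + 2) := by
    rw [hL, hL', ← Real.log_mul (by positivity) (by positivity)]
    apply Real.log_le_log (by positivity)
    push_cast
    nlinarith
  have hLd : (1 - δ) * L' ≤ L := by
    have h1 : Real.log (k + 2) ≤ δ * L := by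
      rw [div_le_iff₀ hδ0] at a5; linarith
    nlinarith
  have hL0 : 0 < L := by linarith
  have hL0' : 0 < L' := by linarith
  set F : ℝ := f n * L with hF
  set G : ℝ := f (n + (k + 1)) * L' with hG
  have hF0 : 0 < F := mul_pos hfn hL0
  have hG0 : 0 < G := mul_pos hfn' hL0'
  rw [abs_le] at hx hy
  have b1 : (c - δ) * F ≤ x := by
    have := hx.1
    have h2 : c - δ ≤ (x : ℝ) / F := by linarith
    rwa [le_div_iff₀ hF0] at h2
  have b2 : (x : ℝ) ≤ (c + δ) * F := by
    have h2 : (x : ℝ) / F ≤ c + δ := by linarith [hx.2]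
    rwa [div_le_iff₀ hF0] at h2
  have b3 : (c - δ) * G ≤ y := by
    have h2 : c - δ ≤ (y : ℝ) / G := by linarith [hy.1]
    rwa [le_div_iff₀ hG0] at h2
  have b4 : (y : ℝ) ≤ (c + δ) * G := by
    have h2 : (y : ℝ) / G ≤ c + δ := by linarith [hy.2]
    rwa [div_le_iff₀ hG0] at h2
  have hxy' : (x : ℝ) ≤ y := by exact_mod_cast hxy
  have hyx' : (y : ℝ) ≤ x + 1 := by exact_mod_cast hyx
  have h1F : 1 ≤ δ * F := by
    have h1 : 1 ≤ δ * f n := by
      rw [div_le_iff₀ hδ0] at a3; linarith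
    have h2 : δ * f n * 1 ≤ δ * f n * L := mul_le_mul_of_nonneg_left a4 (by positivity)
    rw [hF]; linarith
  have c1 : (c - δ) * G ≤ (c + 2 * δ) * F := by linarith
  have c2 : (c - δ) * F ≤ (c + δ) * G := by linarith
  have d1 : (c - δ) * f (n + (k + 1)) ≤ (c + 2 * δ) * f n := by
    have h1 : (c - δ) * f (n + (k + 1)) * L ≤ (c - δ) * f (n + (k + 1)) * L' :=
      mul_le_mul_of_nonneg_left hLL (mul_nonneg (by linarith) hfn'.le)
    have h2 : (c - δ) * f (n + (k + 1)) * L ≤ (c + 2 * δ) * f n * L := by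
      rw [hF, hG] at c1; linarith
    exact le_of_mul_le_mul_right h2 hL0
  have d2 : (1 - δ) * (c - δ) * f n ≤ (c + δ) * f (n + (k + 1)) := by
    have h1 : (c - δ) * f n * ((1 - δ) * L') ≤ (c - δ) * f n * L :=
      mul_le_mul_of_nonneg_left hLd (mul_nonneg (by linarith) hfn.le)
    have h2 : (1 - δ) * (c - δ) * f n * L' ≤ (c + δ) * f (n + (k + 1)) * L' := by
      rw [hF, hG] at c2; linarith
    exact le_of_mul_le_mul_right h2 hL0'
  have g1 : f (n + (k + 1)) < (1 + ε) * f n := by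
    have h1 : (c - δ) * f (n + (k + 1)) < (c - δ) * ((1 + ε) * f n) := by
      have := mul_lt_mul_of_pos_right hδ2 hfn
      linarith
    exact lt_of_mul_lt_mul_left h1 (by linarith)
  have g2 : (1 - ε) * f n < f (n + (k + 1)) := by
    have h1 : (c + δ) * ((1 - ε) * f n) < (c + δ) * f (n + (k + 1)) := by
      have := mul_lt_mul_of_pos_right hδ3 hfn
      linarith
    exact lt_of_mul_lt_mul_left h1 (by linarith)
  rw [abs_lt]
  constructor
  · have : (1 - ε) < f (n + (k + 1)) / f n := by rw [lt_div_iff₀ hfn]; exact g2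
    linarith
  · have : f (n + (k + 1)) / f n < 1 + ε := by rw [div_lt_iff₀ hfn]; exact g1
    linarith

end

end Pool.Agent.Y971.HG
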