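import Mathlib
import Pool.Agent.Y971.HG.Ana

open MeasureTheory ProbabilityTheory Filter
open scoped ENNReal Topology

namespace Pool.Agent.Y971.HG

open Pool.Agent.Results.MP_d1698a_pr.HeightScales

noncomputable section

/-- replace the first leaf of `t` by `s` -/
def join (s : PT) : PT → PT
  | WType.mk 0 _ => s
  | WType.mk (j + 1) c => WType.mk (j + 1) (fun l => if l = 0 then join s (c 0) else c l)

lemma sz_join (s : PT) : ∀ t : PT, sz (join s t) + 1 = sz t + sz s := by
  intro t
  induction t with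
  | mk j c ih =>
    cases j with
    | zero => simp [join, sz]; omega
    | succ j =>
      simp only [join]
      rw [sz, sz, Fin.sum_univ_succ, Fin.sum_univ_succ]
      have h1 := ih 0
      simp only [if_true, Fin.succ_ne_zero, if_false]
      omega

lemma wt_join (μ : ℕ → ℝ≥0∞) (s : PT) : ∀ t : PT, μ 0 * wt μ (join s t) = wt μ t * wt μ s := by
  intro t
  induction t with
  | mk j c ih =>
    cases j with
    | zero => simp [join, wt]
    | succ j =>
      simp only [join]
      rw [wt, wt, Fin.prod_univ_succ, Fin.prod_univ_succ]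
      have h1 := ih 0
      simp only [if_true, Fin.succ_ne_zero, if_false]
      calc _ = μ (j + 1) * (μ 0 * wt μ (join s (c 0))) * ∏ l : Fin j, wt μ (c l.succ) := by ring
        _ = _ := by rw [h1]; ring

lemma sz_mk_zero (c : Fin 0 → PT) : sz (WType.mk 0 c) = 1 := by simp [sz]

lemma join_inj : ∀ (t t' s s' : PT), sz t = sz t' → join s t = join s' t' → t = t' ∧ s = s' := by
  intro t
  induction t with
  | mk j c ih =>
    intro t' s s' hsz hj
    cases t' with
    | mk j' c' =>
      cases j with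
      | zero =>
        cases j' with
        | zero =>
          refine ⟨?_, by simpa [join] using hj⟩
          congr 1
          funext l
          exact l.elim0
        | succ j' =>
          exfalso
          rw [sz_mk_zero, sz, Fin.sum_univ_succ] at hsz
          have := sz_pos (c' 0)
          omega
      | succ j =>
        cases j' with
        | zero =>
          exfalso
          rw [sz_mk_zero, sz, Fin.sum_univ_succ] at hsz
          have := sz_pos (c 0)
          omega
        | succ j' =>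
          simp only [join] at hj
          have hjj : j + 1 = j' + 1 :=
            congrArg (fun t : PT => match t with | WType.mk j _ => j) hj
          have hjj' : j = j' := by omega
          subst hjj'
          have hc : (fun l : Fin (j + 1) => if l = 0 then join s (c 0) else c l) =
              (fun l : Fin (j + 1) => if l = 0 then join s' (c' 0) else c' l) := by
            have := WType.mk.inj hj
            exact eq_of_heq this.2
          have h0 := congrFun hc 0
          simp only [if_true] at h0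
          have hl : ∀ l : Fin j, c l.succ = c' l.succ := by
            intro l
            have := congrFun hc l.succ
            simpa [Fin.succ_ne_zero] using this
          have hs0 : sz (c 0) = sz (c' 0) := by
            rw [sz, sz, Fin.sum_univ_succ, Fin.sum_univ_succ] at hsz
            simp only [hl] at hsz
            omega
          obtain ⟨a1, a2⟩ := ih 0 (c' 0) s s' hs0 h0
          refine ⟨?_, a2⟩
          congr 1
          funext l
          refine Fin.cases ?_ ?_ l
          · exact a1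
          · exact hl

lemma size_eq (μ : PMF ℕ) (n : ℕ) :
    gwLaw μ (sizeEvent n) = ∑' t : {t : PT // sz t = n}, wt μ t.1 := by
  have h := law_eq μ n (fun _ => True)
  simp only [Set.ofPred_true, Set.inter_univ] at h
  rw [h, tsum_sub (fun t => sz t = n ∧ True) (fun t => wt μ t), tsum_sub (fun t => sz t = n) (fun t => wt μ t)]
  simp

lemma super (μ : PMF ℕ) (i j : ℕ) :
    gwLaw μ (sizeEvent i) * gwLaw μ (sizeEvent (j + 1)) ≤ gwLaw μ (sizeEvent (i + j)) := by
  rw [size_eq, size_eq, size_eq, ← ENNReal.tsum_mul_right]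
  simp_rw [← ENNReal.tsum_mul_left]
  rw [← ENNReal.tsum_prod (f := fun (t : {t : PT // sz t = i}) (s : {t : PT // sz t = j + 1}) =>
    wt μ t.1 * wt μ s.1)]
  let φ : {t : PT // sz t = i} × {t : PT // sz t = j + 1} → {t : PT // sz t = i + j} := fun x =>
    ⟨join x.2.1 x.1.1, by
      have := sz_join x.2.1 x.1.1
      have h1 := x.1.2
      have h2 := x.2.2
      omega⟩
  have hφ : Function.Injective φ := by
    intro x y hxy
    have h1 := congrArg Subtype.val hxy
    have h2 := join_inj x.1.1 y.1.1 x.2.1 y.2.1 (by rw [x.1.2, y.1.2]) h1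
    exact Prod.ext (Subtype.ext h2.1) (Subtype.ext h2.2)
  refine le_trans ?_ (ENNReal.tsum_comp_le_tsum_of_injective hφ (fun x => wt μ x.1))
  apply ENNReal.tsum_le_tsum
  intro x
  change wt μ x.1.1 * wt μ x.2.1 ≤ wt μ (join x.2.1 x.1.1)
  rw [← wt_join]
  calc _ ≤ 1 * wt μ (join x.2.1 x.1.1) := mul_le_mul_left (PMF.coe_le_one μ 0) _
    _ = _ := one_mul _

lemma U_super (μ : PMF ℕ) (i j : ℕ) : U μ i * U μ (j + 1) ≤ U μ (i + j) := by
  unfold U
  rw [← ENNReal.toReal_mul]
  exact ENNReal.toReal_mono (measure_ne_top _ _) (super μ i j)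

/-! generating function -/

/-- generating function of the size -/
def W (μ : ℕ → ℝ≥0∞) (z : ℝ≥0∞) : ℝ≥0∞ := ∑' t : PT, wt μ t * z ^ sz t

lemma W_eq (μ : ℕ → ℝ≥0∞) (z : ℝ≥0∞) : W μ z = z * ∑' k, μ k * W μ z ^ k := by
  conv_lhs => rw [W, tsum_PT]
  rw [← ENNReal.tsum_mul_left]
  apply tsum_congr
  intro k
  have h : ∀ c : Fin k → PT, wt μ (WType.mk k c) * z ^ sz (WType.mk k c) =
      (z * μ k) * ∏ i, (wt μ (c i) * z ^ sz (c i)) := by
    intro c
    rw [wt, sz, pow_add, pow_one, Finset.prod_mul_distrib, Finset.prod_pow_eq_pow_sum]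
    ring
  simp_rw [h]
  rw [ENNReal.tsum_mul_left, tsum_prod_pow (fun t => wt μ t * z ^ sz t)]
  change z * μ k * W μ z ^ k = _
  ring

lemma bern (x : ℝ≥0∞) (hx : x ≠ ⊤) (k : ℕ) : 1 + (k : ℝ≥0∞) * x ≤ x ^ k + k := by
  lift x to NNReal using hx
  have h : 1 + (k : NNReal) * x ≤ x ^ k + k := by
    rw [← NNReal.coe_le_coe]
    push_cast
    have := one_add_mul_le_pow (a := (x : ℝ) - 1) (by linarith [NNReal.coe_nonneg x]) k
    have h2 : (1 + ((x : ℝ) - 1)) = x := by ring
    rw [h2] at this
    linarith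
  exact_mod_cast h

lemma phi_ge {μ : PMF ℕ} (hμ : IsCritical μ) (x : ℝ≥0∞) (hx : x ≠ ⊤) : x ≤ ∑' k, μ k * x ^ k := by
  have h1 : ∑' k, μ k * (1 + (k : ℝ≥0∞) * x) ≤ ∑' k, μ k * (x ^ k + k) :=
    ENNReal.tsum_le_tsum (fun k => mul_le_mul_right (bern x hx k) _)
  have h2 : ∑' k, μ k * (1 + (k : ℝ≥0∞) * x) = 1 + x := by
    have : ∀ k, μ k * (1 + (k : ℝ≥0∞) * x) = μ k + ((k : ℝ≥0∞) * μ k) * x := fun k => by ring
    simp_rw [this]
    rw [ENNReal.tsum_add, PMF.tsum_coe, ENNReal.tsum_mul_right, hμ.1, one_mul]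
  have h3 : ∑' k, μ k * (x ^ k + (k : ℝ≥0∞)) = (∑' k, μ k * x ^ k) + 1 := by
    have : ∀ k, μ k * (x ^ k + (k : ℝ≥0∞)) = μ k * x ^ k + (k : ℝ≥0∞) * μ k := fun k => by ring
    simp_rw [this]
    rw [ENNReal.tsum_add, hμ.1]
  rw [h2, h3, add_comm] at h1
  exact (ENNReal.add_le_add_iff_right ENNReal.one_ne_top).1 h1

lemma W_top {μ : PMF ℕ} (hμ : IsCritical μ) (z : ℝ≥0∞) (hz : 1 < z) : W μ z = ⊤ := by
  by_contra hW
  have h1 := phi_ge hμ (W μ z) hW
  have h2 : z * W μ z ≤ W μ z := by
    conv_rhs => rw [W_eq]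
    exact mul_le_mul_right h1 _
  have h3 : 0 < W μ z := by
    have h4 : wt μ leaf * z ^ sz leaf ≤ W μ z := ENNReal.le_tsum leaf
    rw [wt_leaf, sz_leaf, pow_one] at h4
    refine lt_of_lt_of_le ?_ h4
    exact ENNReal.mul_pos (crit_zero hμ) (by positivity)
  have h5 : 1 * W μ z < z * W μ z := ENNReal.mul_lt_mul_left h3.ne' hW hz
  rw [one_mul] at h5
  exact absurd h2 (not_le.2 h5)

lemma W_sum (μ : PMF ℕ) (z : ℝ≥0∞) : W μ z = ∑' n, gwLaw μ (sizeEvent n) * z ^ n := by
  classical
  have h1 : ∀ t : PT, wt μ t * z ^ sz t = ∑' n : ℕ, if sz t = n then wt μ t * z ^ n else 0 := by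
    intro t
    rw [tsum_eq_single (sz t)]
    · simp
    · intro n hn
      rw [if_neg (fun h => hn h.symm)]
  rw [W]
  simp_rw [h1]
  rw [ENNReal.tsum_comm]
  apply tsum_congr
  intro n
  rw [size_eq, tsum_sub (fun t => sz t = n) (fun t => wt μ t), ← ENNReal.tsum_mul_right]
  apply tsum_congr
  intro t
  by_cases h : sz t = n
  · rw [if_pos h, Set.indicator_of_mem (s := {t | sz t = n}) h]
  · rw [if_neg h, Set.indicator_of_notMem (s := {t | sz t = n}) h, zero_mul]

/-- no exponential decay at some size -/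
lemma big_one {μ : PMF ℕ} (hμ : IsCritical μ) (θ : ℝ) (h0 : 0 < θ) (h1 : θ < 1) :
    ∃ m : ℕ, 1 ≤ m ∧ θ ^ m ≤ U μ (m + 1) := by
  by_contra hcon
  push Not at hcon
  set z : ℝ := (1 + 1 / θ) / 2 with hz
  have hθi : 1 < 1 / θ := by rw [lt_div_iff₀ h0]; linarith
  have hz1 : 1 < z := by rw [hz]; linarith
  have hz0 : 0 < z := by linarith
  have hzθ : z * θ = (θ + 1) / 2 := by rw [hz]; field_simp
  have hr1 : z * θ < 1 := by rw [hzθ]; linarith
  have hr0 : 0 ≤ z * θ := by positivity
  have hW := W_top hμ (ENNReal.ofReal z) (by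
    rw [← ENNReal.ofReal_one]; exact (ENNReal.ofReal_lt_ofReal_iff hz0).2 hz1)
  rw [W_sum] at hW
  have hb : ∀ n : ℕ, gwLaw μ (sizeEvent n) * ENNReal.ofReal z ^ n ≤
      ENNReal.ofReal ((1 + z) * (z * θ) ^ (n - 1)) := by
    intro n
    have e1 : gwLaw μ (sizeEvent n) = ENNReal.ofReal (U μ n) := by
      unfold U; rw [ENNReal.ofReal_toReal (measure_ne_top _ _)]
    rw [e1, ← ENNReal.ofReal_pow hz0.le, ← ENNReal.ofReal_mul (U_nonneg _ _)]
    apply ENNReal.ofReal_le_ofReal
    rcases Nat.lt_or_ge n 2 with h | h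
    · have h2 := U_le_one μ n
      have h3 := U_nonneg μ n
      have h4 : z ^ n ≤ 1 + z := by
        have : n = 0 ∨ n = 1 := by omega
        rcases this with rfl | rfl
        · simp; linarith
        · simp
      have h5 : n - 1 = 0 := by omega
      rw [h5, pow_zero, mul_one]
      calc U μ n * z ^ n ≤ 1 * z ^ n := mul_le_mul_of_nonneg_right h2 (by positivity)
        _ ≤ _ := by linarith
    · obtain ⟨m, rfl⟩ : ∃ m, n = m + 1 := ⟨n - 1, by omega⟩
      have h2 := (hcon m (by omega)).le
      have h5 : m + 1 - 1 = m := by omega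
      rw [h5]
      calc U μ (m + 1) * z ^ (m + 1) ≤ θ ^ m * z ^ (m + 1) :=
            mul_le_mul_of_nonneg_right h2 (by positivity)
        _ = z * (z * θ) ^ m := by rw [mul_pow, pow_succ]; ring
        _ ≤ (1 + z) * (z * θ) ^ m := mul_le_mul_of_nonneg_right (by linarith) (by positivity)
  have hs : Summable (fun n : ℕ => (1 + z) * (z * θ) ^ (n - 1)) := by
    rw [← summable_nat_add_iff 1]
    simp only [Nat.add_sub_cancel]
    exact (summable_geometric_of_lt_one hr0 hr1).mul_left _
  have hfin : ∑' n : ℕ, ENNReal.ofReal ((1 + z) * (z * θ) ^ (n - 1)) ≠ ⊤ := by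
    rw [← ENNReal.ofReal_tsum_of_nonneg (fun n => by positivity) hs]
    exact ENNReal.ofReal_ne_top
  exact hfin (top_le_iff.1 (hW ▸ ENNReal.tsum_le_tsum hb))

end

end Pool.Agent.Y971.HG
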