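import Mathlib
import Pool.Agent.Y971.HG.Step

open MeasureTheory ProbabilityTheory Filter
open scoped ENNReal Topology

namespace Pool.Agent.Y971.HG

open Pool.Agent.Results.MP_d1698a_pr.HeightScales

noncomputable section

open Classical in
/-- the marks of a tree: vertices with `k` children, all of them leaves except perhaps the first -/
def marks (k : ℕ) : PT → Finset (List ℕ)
  | WType.mk j c =>
    (if j = k ∧ ∀ l : Fin j, l.1 ≠ 0 → c l = leaf then {[]} else ∅) ∪
      Finset.univ.biUnion (fun i : Fin j => (marks k (c i)).image (fun v => i.1 :: v))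

lemma mem_marks_nil {k j : ℕ} {c : Fin j → PT} :
    [] ∈ marks k (WType.mk j c) ↔ (j = k ∧ ∀ l : Fin j, l.1 ≠ 0 → c l = leaf) := by
  classical
  simp only [marks, Finset.mem_union, Finset.mem_biUnion, Finset.mem_univ, true_and,
    Finset.mem_image]
  constructor
  · rintro (h | ⟨i, v, _, hv⟩)
    · by_contra hcon
      rw [if_neg hcon] at h
      simp at h
    · simp at hv
  · intro h
    left
    rw [if_pos h]
    simp

lemma mem_marks_cons {k j i : ℕ} {w : List ℕ} {c : Fin j → PT} :
    (i :: w) ∈ marks k (WType.mk j c) ↔ ∃ l : Fin j, l.1 = i ∧ w ∈ marks k (c l) := by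
  classical
  simp only [marks, Finset.mem_union, Finset.mem_biUnion, Finset.mem_univ, true_and,
    Finset.mem_image]
  constructor
  · rintro (h | ⟨l, v, hv, h⟩)
    · by_cases hcon : j = k ∧ ∀ l : Fin j, l.1 ≠ 0 → c l = leaf
      · rw [if_pos hcon] at h; simp at h
      · rw [if_neg hcon] at h; simp at h
    · simp only [List.cons.injEq] at h
      exact ⟨l, h.1, h.2 ▸ hv⟩
  · rintro ⟨l, hl, hw⟩
    exact Or.inr ⟨l, w, hw, by rw [hl]⟩

/-- number of marks -/
def D (k : ℕ) (t : PT) : ℕ := (marks k t).card

open Classical in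
lemma D_mk (k j : ℕ) (c : Fin j → PT) :
    D k (WType.mk j c) = (if j = k ∧ ∀ l : Fin j, l.1 ≠ 0 → c l = leaf then 1 else 0) +
      ∑ i : Fin j, D k (c i) := by
  unfold D
  rw [marks, Finset.card_union_of_disjoint, Finset.card_biUnion]
  · congr 1
    · split_ifs <;> simp
    · apply Finset.sum_congr rfl
      intro i _
      rw [Finset.card_image_of_injective]
      intro a b hab
      simpa using hab
  · intro i _ l _ hil
    rw [Function.onFun, Finset.disjoint_left]
    intro v hv hv'
    simp only [Finset.mem_image] at hv hv'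
    obtain ⟨w, _, rfl⟩ := hv
    obtain ⟨w', _, h⟩ := hv'
    simp at h
    exact hil (Fin.ext h.1.symm)
  · rw [Finset.disjoint_left]
    intro v hv hv'
    simp only [Finset.mem_biUnion, Finset.mem_univ, true_and, Finset.mem_image] at hv'
    obtain ⟨i, w, _, rfl⟩ := hv'
    split_ifs at hv <;> simp at hv

lemma marks_ins (k : ℕ) : ∀ (u : List ℕ) (t : PT), u ∈ nodes t →
    u ∈ marks (k + 1) (ins (k + 1) u t) := by
  intro u
  induction u with
  | nil =>
    intro t _
    simp only [ins]
    rw [mem_marks_nil]
    exact ⟨rfl, fun l hl => by rw [if_neg hl]⟩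
  | cons i w ih =>
    intro t
    cases t with
    | mk j c =>
      rw [mem_nodes_mk]
      rintro (h | ⟨l, w', hw, h⟩)
      · exact absurd h (by simp)
      · simp only [List.cons.injEq] at h
        obtain ⟨h1, h2⟩ := h
        subst h2
        simp only [ins]
        rw [mem_marks_cons]
        refine ⟨l, h1.symm, ?_⟩
        rw [if_pos h1.symm]
        exact ih _ hw

lemma nil_mem (t : PT) : [] ∈ nodes t := by
  cases t with
  | mk j c => rw [mem_nodes_mk]; exact Or.inl rfl

lemma of_mark (k : ℕ) : ∀ (u : List ℕ) (t : PT), u ∈ marks (k + 1) t →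
    u ∈ nodes (del u t) ∧ ins (k + 1) u (del u t) = t := by
  intro u
  induction u with
  | nil =>
    intro t
    cases t with
    | mk j c =>
      rw [mem_marks_nil]
      rintro ⟨rfl, h⟩
      refine ⟨nil_mem _, ?_⟩
      simp only [del, ins, Nat.succ_pos, dif_pos]
      congr 1
      funext l
      by_cases hl : l.1 = 0
      · rw [if_pos hl]
        congr 1
        exact Fin.ext hl.symm
      · rw [if_neg hl, h l hl]
  | cons i w ih =>
    intro t
    cases t with
    | mk j c =>
      rw [mem_marks_cons]
      rintro ⟨l, hl, hw⟩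
      obtain ⟨a1, a2⟩ := ih _ hw
      constructor
      · simp only [del]
        rw [mem_nodes_mk]
        refine Or.inr ⟨l, w, ?_, by rw [hl]⟩
        rw [if_pos hl]
        exact a1
      · simp only [del, ins]
        congr 1
        funext l'
        by_cases h : l'.1 = i
        · have : l' = l := Fin.ext (h.trans hl.symm)
          subst this
          rw [if_pos h, if_pos h]
          exact a2
        · rw [if_neg h, if_neg h]

lemma leaf_of_ins {k : ℕ} {w : List ℕ} {t : PT} (h : ins (k + 1) w t = leaf) : t = leaf := by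
  cases w with
  | nil =>
    simp only [ins, leaf] at h
    have := congrArg sz h
    simp only [sz] at this
    rw [Fin.sum_univ_succ] at this
    simp only [Fin.val_zero, if_true, Finset.univ_eq_empty, Finset.sum_empty] at this
    have := sz_pos t
    omega
  | cons i w =>
    cases t with
    | mk j c =>
      simp only [ins, leaf] at h
      have hj : j = 0 := congrArg (fun t : PT => match t with | WType.mk j _ => j) h
      subst hj
      unfold leaf
      congr 1
      funext l
      exact l.elim0

lemma D_ins (k : ℕ) : ∀ (u : List ℕ) (t : PT), D (k + 1) (ins (k + 1) u t) ≤ D (k + 1) t + 1 := by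
  classical
  intro u
  induction u with
  | nil =>
    intro t
    simp only [ins]
    rw [D_mk, Fin.sum_univ_succ]
    have h1 : D (k + 1) leaf = 0 := by
      unfold leaf
      rw [D_mk]
      simp
    simp [h1]
    split_ifs <;> omega
  | cons i w ih =>
    intro t
    cases t with
    | mk j c =>
      simp only [ins]
      rw [D_mk, D_mk]
      have h1 : (if j = k + 1 ∧ ∀ l : Fin j, l.1 ≠ 0 →
          (if l.1 = i then ins (k + 1) w (c l) else c l) = leaf then 1 else 0) ≤
          (if j = k + 1 ∧ ∀ l : Fin j, l.1 ≠ 0 → c l = leaf then 1 else 0) := by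
        by_cases h : j = k + 1 ∧ ∀ l : Fin j, l.1 ≠ 0 →
            (if l.1 = i then ins (k + 1) w (c l) else c l) = leaf
        · have h' : j = k + 1 ∧ ∀ l : Fin j, l.1 ≠ 0 → c l = leaf := by
            refine ⟨h.1, fun l hl => ?_⟩
            have := h.2 l hl
            by_cases hi : l.1 = i
            · rw [if_pos hi] at this
              exact leaf_of_ins this
            · rwa [if_neg hi] at this
          rw [if_pos h, if_pos h']
        · rw [if_neg h]; exact Nat.zero_le _
      have h2 : ∑ l : Fin j, D (k + 1) (if l.1 = i then ins (k + 1) w (c l) else c l) ≤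
          (∑ l : Fin j, D (k + 1) (c l)) + 1 := by
        have h3 : ∀ l : Fin j, D (k + 1) (if l.1 = i then ins (k + 1) w (c l) else c l) ≤
            D (k + 1) (c l) + (if l.1 = i then 1 else 0) := by
          intro l
          by_cases hi : l.1 = i
          · rw [if_pos hi, if_pos hi]; exact ih _
          · rw [if_neg hi, if_neg hi]; omega
        refine (Finset.sum_le_sum (fun l _ => h3 l)).trans ?_
        rw [Finset.sum_add_distrib]
        have h4 : ∑ l : Fin j, (if l.1 = i then 1 else 0) ≤ 1 := by
          by_cases hi : i < j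
          · have : ∀ l : Fin j, (if l.1 = i then 1 else 0) = (if l = ⟨i, hi⟩ then 1 else 0) := by
              intro l
              simp [Fin.ext_iff]
            simp [this]
          · rw [Finset.sum_eq_zero]
            · omega
            · intro l _
              rw [if_neg]
              have := l.2
              omega
        omega
      omega

/-- trees with a mark -/
abbrev KT (k : ℕ) : Type := {x : PT × List ℕ // x.2 ∈ marks k x.1}

lemma tsum_marks (k : ℕ) (F : PT → ℝ≥0∞) :
    ∑' x : KT k, F x.1.1 = ∑' t : PT, (D k t : ℝ≥0∞) * F t := by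
  have h1 : ∑' x : KT k, F x.1.1 = ∑' y : (Σ t : PT, {u : List ℕ // u ∈ marks k t}), F y.1 := by
    let e : (Σ t : PT, {u : List ℕ // u ∈ marks k t}) ≃ KT k :=
      { toFun := fun y => ⟨(y.1, y.2.1), y.2.2⟩
        invFun := fun x => ⟨x.1.1, ⟨x.1.2, x.2⟩⟩
        left_inv := fun y => rfl
        right_inv := fun x => rfl }
    rw [← e.tsum_eq]
    rfl
  rw [h1, ENNReal.tsum_sigma']
  apply tsum_congr
  intro t
  simp only
  rw [tsum_fintype, Finset.sum_const, nsmul_eq_mul]
  congr 2
  rw [Finset.card_univ, Fintype.card_coe, D]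

/-- insertion is a bijection from marked vertices to marks -/
def insEquiv (k : ℕ) : MT ≃ KT (k + 1) where
  toFun x := ⟨(ins (k + 1) x.1.2 x.1.1, x.1.2), marks_ins k _ _ x.2⟩
  invFun y := ⟨(del y.1.2 y.1.1, y.1.2), (of_mark k _ _ y.2).1⟩
  left_inv x := by
    apply Subtype.ext
    simp only
    rw [del_ins _ (Nat.succ_pos k)]
  right_inv y := by
    apply Subtype.ext
    simp only
    rw [(of_mark k _ _ y.2).2]

/-- the identity behind the comparison of sizes `n` and `n + k + 1` -/
lemma identity (μ : ℕ → ℝ≥0∞) (k : ℕ) (F : PT → ℝ≥0∞) :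
    ∑' t : PT, (D (k + 1) t : ℝ≥0∞) * (F t * wt μ t) =
      (μ (k + 1) * μ 0 ^ k) * ∑' x : MT, F (ins (k + 1) x.1.2 x.1.1) * wt μ x.1.1 := by
  rw [← tsum_marks (k + 1) (fun t => F t * wt μ t), ← (insEquiv k).tsum_eq, ← ENNReal.tsum_mul_left]
  apply tsum_congr
  intro x
  change F (ins (k + 1) x.1.2 x.1.1) * wt μ (ins (k + 1) x.1.2 x.1.1) = _
  rw [wt_ins _ _ _ _ x.2]
  ring

end

end Pool.Agent.Y971.HG
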