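import Mathlib
import Pool.Agent.Y971.HG.Marks
import Pool.Agent.Y971.HG.Join

open MeasureTheory ProbabilityTheory Filter
open scoped ENNReal Topology

namespace Pool.Agent.Y971.HG

open Pool.Agent.Results.MP_d1698a_pr.HeightScales

noncomputable section

open Classical in
/-- moments of the number of marks -/
def Sm (μ : PMF ℕ) (k e n : ℕ) : ℝ≥0∞ :=
  ∑' t : PT, if sz t = n then (D (k + 1) t : ℝ≥0∞) ^ e * wt μ t else 0

lemma Sm_zero (μ : PMF ℕ) (k n : ℕ) : Sm μ k 0 n = gwLaw μ (sizeEvent n) := by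
  classical
  rw [size_eq, tsum_sub (fun t => sz t = n) (fun t => wt μ t), Sm]
  apply tsum_congr
  intro t
  by_cases h : sz t = n
  · rw [if_pos h, Set.indicator_of_mem (s := {t | sz t = n}) h]; simp
  · rw [if_neg h, Set.indicator_of_notMem (s := {t | sz t = n}) h]

lemma Sm_one (μ : PMF ℕ) (k n : ℕ) :
    Sm μ k 1 (n + (k + 1)) = (μ (k + 1) * μ 0 ^ k) * ((n : ℝ≥0∞) * gwLaw μ (sizeEvent n)) := by
  classical
  have h := identity μ k (fun t => if sz t = n + (k + 1) then 1 else 0)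
  have e1 : Sm μ k 1 (n + (k + 1)) =
      ∑' t : PT, (D (k + 1) t : ℝ≥0∞) * ((if sz t = n + (k + 1) then 1 else 0) * wt μ t) := by
    rw [Sm]
    apply tsum_congr
    intro t
    split_ifs <;> simp
  rw [e1, h]
  congr 1
  have e2 : ∑' x : MT, (if sz (ins (k + 1) x.1.2 x.1.1) = n + (k + 1) then (1 : ℝ≥0∞) else 0) *
      wt μ x.1.1 = ∑' x : MT, (fun t : PT => if sz t = n then wt μ t else 0) x.1.1 := by
    apply tsum_congr
    intro x
    rw [sz_ins _ _ _ x.2]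
    by_cases h : sz x.1.1 = n
    · simp [h]
    · simp [h]
  rw [e2, tsum_marked (fun t : PT => if sz t = n then wt μ t else 0), ← Sm_zero μ k, Sm,
    ← ENNReal.tsum_mul_left]
  apply tsum_congr
  intro t
  by_cases h : sz t = n
  · simp [h]
  · simp [h]

lemma Sm_two (μ : PMF ℕ) (k n : ℕ) :
    Sm μ k 2 (n + (k + 1)) ≤ (μ (k + 1) * μ 0 ^ k) *
      ((n : ℝ≥0∞) * (Sm μ k 1 n + gwLaw μ (sizeEvent n))) := by
  classical
  have h := identity μ k (fun t => if sz t = n + (k + 1) then (D (k + 1) t : ℝ≥0∞) else 0)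
  have e1 : Sm μ k 2 (n + (k + 1)) =
      ∑' t : PT, (D (k + 1) t : ℝ≥0∞) *
        ((if sz t = n + (k + 1) then (D (k + 1) t : ℝ≥0∞) else 0) * wt μ t) := by
    rw [Sm]
    apply tsum_congr
    intro t
    split_ifs
    · ring
    · simp
  rw [e1, h]
  refine mul_le_mul_right ?_ _
  have e2 : ∑' x : MT, (if sz (ins (k + 1) x.1.2 x.1.1) = n + (k + 1) then
      (D (k + 1) (ins (k + 1) x.1.2 x.1.1) : ℝ≥0∞) else 0) * wt μ x.1.1 ≤
      ∑' x : MT, (fun t : PT => if sz t = n then ((D (k + 1) t : ℝ≥0∞) + 1) * wt μ t else 0) x.1.1 := by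
    apply ENNReal.tsum_le_tsum
    intro x
    rw [sz_ins _ _ _ x.2]
    by_cases h : sz x.1.1 = n
    · simp only [h, if_true]
      refine mul_le_mul_left ?_ _
      exact_mod_cast D_ins k x.1.2 x.1.1
    · simp [h]
  refine e2.trans ?_
  rw [tsum_marked (fun t : PT => if sz t = n then ((D (k + 1) t : ℝ≥0∞) + 1) * wt μ t else 0),
    ← Sm_zero μ k, Sm, Sm, ← ENNReal.tsum_add, ← ENNReal.tsum_mul_left]
  apply le_of_eq
  apply tsum_congr
  intro t
  by_cases h : sz t = n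
  · simp only [h, if_true]; ring
  · simp [h]

lemma two_le (x y : ℝ≥0∞) (hx : x ≠ ⊤) (hy : y ≠ ⊤) : 2 * x * y ≤ x ^ 2 + y ^ 2 := by
  lift x to NNReal using hx
  lift y to NNReal using hy
  exact_mod_cast two_mul_le_add_sq x y

lemma Sm_cs (μ : PMF ℕ) (k n : ℕ) (l : ℝ≥0∞) (hl : l ≠ ⊤) :
    2 * l * Sm μ k 1 n ≤ Sm μ k 2 n + l ^ 2 * Sm μ k 0 n := by
  classical
  rw [Sm, Sm, Sm, ← ENNReal.tsum_mul_left, ← ENNReal.tsum_mul_left, ← ENNReal.tsum_add]
  apply ENNReal.tsum_le_tsum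
  intro t
  by_cases h : sz t = n
  · simp only [h, if_true, pow_zero, pow_one, one_mul]
    have := two_le l (D (k + 1) t) hl (ENNReal.natCast_ne_top _)
    calc _ = (2 * l * (D (k + 1) t : ℝ≥0∞)) * wt μ t := by ring
      _ ≤ (l ^ 2 + (D (k + 1) t : ℝ≥0∞) ^ 2) * wt μ t := mul_le_mul_left this _
      _ = _ := by ring
  · simp [h]

/-- `a = μ (k+1) μ 0 ^ k` -/
def aa (μ : PMF ℕ) (k : ℕ) : ℝ := (μ (k + 1)).toReal * (μ 0).toReal ^ k

lemma aa_pos (μ : PMF ℕ) (k : ℕ) (h0 : μ 0 ≠ 0) (hk : μ (k + 1) ≠ 0) : 0 < aa μ k := by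
  unfold aa
  have h1 : 0 < (μ (k + 1)).toReal := ENNReal.toReal_pos hk (PMF.apply_ne_top μ _)
  have h2 : 0 < (μ 0).toReal := ENNReal.toReal_pos h0 (PMF.apply_ne_top μ _)
  positivity

lemma a_ne_top (μ : PMF ℕ) (k : ℕ) : μ (k + 1) * μ 0 ^ k ≠ ⊤ :=
  ENNReal.mul_ne_top (PMF.apply_ne_top μ _) (ENNReal.pow_ne_top (PMF.apply_ne_top μ _))

lemma cs_real (μ : PMF ℕ) (k n : ℕ) (hn : 1 ≤ n) (ha : 0 < aa μ k) (hU : 0 < U μ (n + 2 * (k + 1))) :
    aa μ k * (n + (k + 1) : ℕ) * U μ (n + (k + 1)) ^ 2 ≤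
      U μ (n + 2 * (k + 1)) * (aa μ k * n * U μ n + U μ (n + (k + 1))) := by
  set m1 : ℕ := n + (k + 1) with hm1
  have hm2 : n + 2 * (k + 1) = m1 + (k + 1) := by rw [hm1]; ring
  rw [hm2] at hU ⊢
  have h1 := Sm_one μ k n
  have h2 := Sm_one μ k m1
  have h3 := Sm_two μ k m1
  rw [← hm1] at h1
  have f1 : Sm μ k 1 m1 ≠ ⊤ := by
    rw [h1]
    exact ENNReal.mul_ne_top (a_ne_top μ k)
      (ENNReal.mul_ne_top (ENNReal.natCast_ne_top _) (measure_ne_top _ _))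
  have f3 : (μ (k + 1) * μ 0 ^ k) * ((m1 : ℝ≥0∞) * (Sm μ k 1 m1 + gwLaw μ (sizeEvent m1))) ≠ ⊤ :=
    ENNReal.mul_ne_top (a_ne_top μ k)
      (ENNReal.mul_ne_top (ENNReal.natCast_ne_top _) (ENNReal.add_ne_top.2 ⟨f1, measure_ne_top _ _⟩))
  have f2 : Sm μ k 2 (m1 + (k + 1)) ≠ ⊤ := ne_top_of_le_ne_top f3 h3
  -- real versions
  have r1 : (Sm μ k 1 m1).toReal = aa μ k * (n * U μ n) := by
    rw [h1]; simp only [ENNReal.toReal_mul, ENNReal.toReal_pow, ENNReal.toReal_natCast]; rfl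
  have r2 : (Sm μ k 1 (m1 + (k + 1))).toReal = aa μ k * (m1 * U μ m1) := by
    rw [h2]; simp only [ENNReal.toReal_mul, ENNReal.toReal_pow, ENNReal.toReal_natCast]; rfl
  have r3 : (Sm μ k 2 (m1 + (k + 1))).toReal ≤ aa μ k * (m1 * (aa μ k * (n * U μ n) + U μ m1)) := by
    refine (ENNReal.toReal_mono f3 h3).trans (le_of_eq ?_)
    simp only [ENNReal.toReal_mul, ENNReal.toReal_pow, ENNReal.toReal_natCast]
    rw [ENNReal.toReal_add f1 (measure_ne_top _ _), r1]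
    rfl
  set u2 : ℝ := U μ (m1 + (k + 1)) with hu2
  set A1 : ℝ := aa μ k * (m1 * U μ m1) with hA1
  set A2 : ℝ := aa μ k * (m1 * (aa μ k * (n * U μ n) + U μ m1)) with hA2
  have hA1n : 0 ≤ A1 := by
    have := U_nonneg μ m1
    positivity
  have key : ∀ l : ℝ, 0 ≤ l → 2 * l * A1 ≤ A2 + l ^ 2 * u2 := by
    intro l hl
    have h := Sm_cs μ k (m1 + (k + 1)) (ENNReal.ofReal l) ENNReal.ofReal_ne_top
    rw [Sm_zero] at h
    have f4 : Sm μ k 2 (m1 + (k + 1)) + ENNReal.ofReal l ^ 2 * gwLaw μ (sizeEvent (m1 + (k + 1))) ≠ ⊤ :=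
      ENNReal.add_ne_top.2 ⟨f2, ENNReal.mul_ne_top (ENNReal.pow_ne_top ENNReal.ofReal_ne_top)
        (measure_ne_top _ _)⟩
    have h' := ENNReal.toReal_mono f4 h
    rw [ENNReal.toReal_add f2 (ENNReal.mul_ne_top (ENNReal.pow_ne_top ENNReal.ofReal_ne_top)
        (measure_ne_top _ _))] at h'
    simp only [ENNReal.toReal_mul, ENNReal.toReal_pow, ENNReal.toReal_ofReal hl,
      ENNReal.toReal_ofNat] at h'
    rw [r2] at h'
    have h'' : 2 * l * A1 ≤ (Sm μ k 2 (m1 + (k + 1))).toReal + l ^ 2 * u2 := h'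
    linarith
  have h5 := key (A1 / u2) (by positivity)
  have h6 : A1 ^ 2 ≤ A2 * u2 := by
    have e1 : 2 * (A1 / u2) * A1 = 2 * (A1 ^ 2 / u2) := by ring
    have e2 : (A1 / u2) ^ 2 * u2 = A1 ^ 2 / u2 := by field_simp
    rw [e1, e2] at h5
    have h7 : A1 ^ 2 / u2 ≤ A2 := by linarith
    rwa [div_le_iff₀ hU] at h7
  have hm1pos : (0 : ℝ) < m1 := by
    have : 1 ≤ m1 := by omega
    exact_mod_cast this
  have h8 : (aa μ k * m1) * (aa μ k * m1 * U μ m1 ^ 2) ≤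
      (aa μ k * m1) * (u2 * (aa μ k * n * U μ n + U μ m1)) := by
    rw [hA1, hA2] at h6
    nlinarith
  exact le_of_mul_le_mul_left h8 (by positivity)

/-- subexponential decay -/
lemma subexp {μ : PMF ℕ} (hμ : IsCritical μ) (k n0 : ℕ) (hn0 : 1 ≤ n0)
    (hp : ∀ m, 0 < U μ (n0 + m * (k + 1))) (θ : ℝ) (h0 : 0 < θ) (h1 : θ < 1) :
    ∃ c : ℝ, 0 < c ∧ ∀ m, c * θ ^ m ≤ U μ (n0 + m * (k + 1)) := by
  set κ : ℕ := k + 1 with hκ
  have hκpos : (0 : ℝ) < κ := by rw [hκ]; positivity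
  set θ0 : ℝ := 1 - (1 - θ) / κ with hθ0
  have hκ1 : (1 : ℝ) ≤ κ := by
    have : 1 ≤ κ := by omega
    exact_mod_cast this
  have hq : (1 - θ) / κ ≤ 1 - θ := div_le_self (by linarith) hκ1
  have hq0 : 0 < (1 - θ) / κ := div_pos (by linarith) hκpos
  have hθ00 : 0 < θ0 := by rw [hθ0]; linarith
  have hθ01 : θ0 < 1 := by rw [hθ0]; linarith
  have hθ0κ : θ ≤ θ0 ^ κ := by
    have := one_add_mul_le_pow (a := -((1 - θ) / κ)) (by linarith) κ
    have e : 1 + (κ : ℝ) * -((1 - θ) / κ) = θ := by field_simp; ring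
    rw [e] at this
    have e2 : 1 + -((1 - θ) / (κ : ℝ)) = θ0 := by rw [hθ0]; ring
    rwa [e2] at this
  obtain ⟨m, hm, hmU⟩ := big_one hμ θ0 hθ00 hθ01
  -- powers
  have hpow : ∀ q : ℕ, (θ0 ^ m) ^ q ≤ U μ (q * m + 1) ∨ q = 0 := by
    intro q
    induction q with
    | zero => exact Or.inr rfl
    | succ q ih =>
      left
      rcases ih with ih | ih
      · have h := U_super μ (q * m + 1) m
        have e : (q + 1) * m + 1 = q * m + 1 + m := by ring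
        rw [e, pow_succ]
        refine le_trans ?_ h
        exact mul_le_mul ih hmU (by positivity) (U_nonneg _ _)
      · subst ih
        simpa using hmU
  have hbig : θ0 ^ (κ * m) ≤ U μ (κ * m + 1) := by
    rcases hpow κ with h | h
    · rwa [← pow_mul, mul_comm m κ] at h
    · omega
  have hstep : ∀ n : ℕ, θ ^ m * U μ n ≤ U μ (n + m * κ) := by
    intro n
    have h := U_super μ n (κ * m)
    have h2 : θ ^ m ≤ U μ (κ * m + 1) := by
      refine le_trans ?_ hbig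
      rw [pow_mul]
      exact pow_le_pow_left₀ h0.le hθ0κ m
    rw [mul_comm m κ, mul_comm]
    exact (mul_le_mul_of_nonneg_left h2 (U_nonneg _ _)).trans h
  -- minimum over residues
  obtain ⟨r0, _, hr0⟩ := Finset.exists_min_image (Finset.range m)
    (fun r => U μ (n0 + r * κ)) ⟨0, Finset.mem_range.2 (by omega)⟩
  refine ⟨U μ (n0 + r0 * κ), hp r0, ?_⟩
  intro j
  induction j using Nat.strong_induction_on with
  | _ j ih =>
    rcases Nat.lt_or_ge j m with h | h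
    · have h2 := hr0 j (Finset.mem_range.2 h)
      have h3 : θ ^ j ≤ 1 := pow_le_one₀ h0.le h1.le
      have h4 := (hp r0).le
      calc _ ≤ U μ (n0 + r0 * κ) * 1 := mul_le_mul_of_nonneg_left h3 h4
        _ ≤ _ := by rw [mul_one]; exact h2
    · have h2 := ih (j - m) (by omega)
      have h3 := hstep (n0 + (j - m) * κ)
      have e : n0 + (j - m) * κ + m * κ = n0 + j * κ := by
        have : (j - m) * κ + m * κ = j * κ := by rw [← add_mul]; congr 1; omega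
        omega
      rw [e] at h3
      have e2 : θ ^ j = θ ^ m * θ ^ (j - m) := by rw [← pow_add]; congr 1; omega
      rw [e2]
      calc _ = θ ^ m * (U μ (n0 + r0 * κ) * θ ^ (j - m)) := by ring
        _ ≤ θ ^ m * U μ (n0 + (j - m) * κ) := mul_le_mul_of_nonneg_left h2 (by positivity)
        _ ≤ _ := h3

end

end Pool.Agent.Y971.HG
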