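import Mathlib
import Pool.Agent.Y971.HG.Ratio

open MeasureTheory ProbabilityTheory Filter
open scoped ENNReal Topology

namespace Pool.Agent.Y971.HG

open Pool.Agent.Results.MP_d1698a_pr.HeightScales

noncomputable section

lemma rho_step (a n nk x0 x1 x2 : ℝ) (ha : 0 < a) (hn : 0 < n) (hnk : n ≤ nk) (h0 : 0 < x0)
    (h1 : 0 < x1) (h2 : 0 < x2) (h : a * nk * x1 ^ 2 ≤ x2 * (a * n * x0 + x1)) :
    x1 / x2 ≤ x0 / x1 + 1 / (a * n) := by
  have e : x0 / x1 + 1 / (a * n) = (a * n * x0 + x1) / (a * n * x1) := by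
    field_simp
  rw [e, div_le_div_iff₀ h2 (by positivity)]
  have h3 : a * n * x1 ^ 2 ≤ a * nk * x1 ^ 2 := by
    apply mul_le_mul_of_nonneg_right _ (by positivity)
    exact mul_le_mul_of_nonneg_left hnk ha.le
  nlinarith

lemma ratio_class {μ : PMF ℕ} (hμ : IsCritical μ) (k n0 : ℕ) (hn0 : 1 ≤ n0) (hk : μ (k + 1) ≠ 0)
    (hp : ∀ m, 0 < U μ (n0 + m * (k + 1))) :
    ∃ N : ℕ, ∀ m, N ≤ m → U μ (n0 + (m + 1) * (k + 1)) ≤ 4 * U μ (n0 + m * (k + 1)) := by
  set a : ℝ := aa μ k with ha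
  have ha0 : 0 < a := aa_pos μ k (crit_zero hμ) hk
  set x : ℕ → ℝ := fun m => U μ (n0 + m * (k + 1)) with hx
  have hxp : ∀ m, 0 < x m := hp
  have hx1 : ∀ m, x m ≤ 1 := fun m => U_le_one μ _
  have hstep : ∀ m, 1 ≤ m → x (m + 1) / x (m + 2) ≤ x m / x (m + 1) + 1 / (a * m) := by
    intro m hm
    have hmpos : (0 : ℝ) < m := by exact_mod_cast hm
    have h := cs_real μ k (n0 + m * (k + 1)) (by omega) ha0 (by
      have := hp (m + 2)
      have e : n0 + (m + 2) * (k + 1) = n0 + m * (k + 1) + 2 * (k + 1) := by ring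
      rwa [e] at this)
    have e1 : n0 + m * (k + 1) + (k + 1) = n0 + (m + 1) * (k + 1) := by ring
    have e2 : n0 + m * (k + 1) + 2 * (k + 1) = n0 + (m + 2) * (k + 1) := by ring
    rw [e1, e2] at h
    have hnpos : (0 : ℝ) < ((n0 + m * (k + 1) : ℕ) : ℝ) := by
      exact_mod_cast (by omega : 0 < n0 + m * (k + 1))
    have h2 := rho_step a ((n0 + m * (k + 1) : ℕ) : ℝ) ((n0 + (m + 1) * (k + 1) : ℕ) : ℝ)
      (x m) (x (m + 1)) (x (m + 2)) ha0 hnpos (by
        exact_mod_cast (by nlinarith : n0 + m * (k + 1) ≤ n0 + (m + 1) * (k + 1)))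
      (hxp _) (hxp _) (hxp _) h
    refine h2.trans ?_
    have h3 : 1 / (a * ((n0 + m * (k + 1) : ℕ) : ℝ)) ≤ 1 / (a * m) := by
      apply one_div_le_one_div_of_le (by positivity)
      apply mul_le_mul_of_nonneg_left _ ha0.le
      exact_mod_cast (by nlinarith : m ≤ n0 + m * (k + 1))
    linarith
  -- the base
  set β : ℝ := (2 : ℝ) ^ (a / 8) with hβ
  have hβ1 : 1 < β := Real.one_lt_rpow (by norm_num) (by positivity)
  have hβ0 : 0 < β := by linarith
  obtain ⟨c, hc, hcx⟩ := subexp hμ k n0 hn0 hp β⁻¹ (inv_pos.2 hβ0) (inv_lt_one_of_one_lt₀ hβ1)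
  have hlim : Tendsto (fun M : ℕ => β ^ M) atTop atTop := tendsto_pow_atTop_atTop_of_one_lt hβ1
  obtain ⟨N, hN⟩ := eventually_atTop.1 ((hlim.eventually_gt_atTop (1 / c)).and
    (eventually_ge_atTop 1))
  refine ⟨N, fun M hM => ?_⟩
  obtain ⟨hM1, hM2⟩ := hN M hM
  have hMpos : (0 : ℝ) < M := by exact_mod_cast hM2
  by_contra hcon
  rw [not_le] at hcon
  have hcon' : 4 * x M < x (M + 1) := hcon
  have hρ0 : x M / x (M + 1) ≤ 1 / 4 := by
    rw [div_le_div_iff₀ (hxp _) (by norm_num)]; linarith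
  have hρ : ∀ j : ℕ, x (M + j) / x (M + j + 1) ≤ 1 / 4 + j / (a * M) := by
    intro j
    induction j with
    | zero => simpa using hρ0
    | succ j ih =>
      have h1 := hstep (M + j) (by omega)
      have h2 : 1 / (a * ((M + j : ℕ) : ℝ)) ≤ 1 / (a * M) := by
        apply one_div_le_one_div_of_le (by positivity)
        apply mul_le_mul_of_nonneg_left _ ha0.le
        exact_mod_cast (by omega : M ≤ M + j)
      have e : ((j + 1 : ℕ) : ℝ) / (a * M) = j / (a * M) + 1 / (a * M) := by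
        push_cast; ring
      rw [e]
      have e2 : M + (j + 1) = M + j + 1 := by ring
      rw [e2]
      have e3 : M + j + 1 + 1 = M + j + 2 := by ring
      rw [e3]
      linarith
  have hgrow : ∀ j : ℕ, ((j : ℝ) - 1) ≤ a * M / 4 → 2 ^ j * x M ≤ x (M + j) := by
    intro j
    induction j with
    | zero => intro _; simp
    | succ j ih =>
      intro hj
      push_cast at hj
      have h1 := ih (by linarith)
      have h2 := hρ j
      have h3 : (j : ℝ) / (a * M) ≤ 1 / 4 := by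
        rw [div_le_iff₀ (by positivity)]; linarith
      have h4 : x (M + j) / x (M + j + 1) ≤ 1 / 2 := by linarith
      rw [div_le_iff₀ (hxp _)] at h4
      have e2 : M + (j + 1) = M + j + 1 := by ring
      rw [e2, pow_succ]
      linarith
  set J : ℕ := ⌊a * M / 4⌋₊ + 1 with hJ
  have hJ1 : a * M / 4 ≤ J := by
    rw [hJ]; push_cast
    exact (Nat.lt_floor_add_one _).le
  have hJ2 : (J : ℝ) - 1 ≤ a * M / 4 := by
    rw [hJ]; push_cast
    have := Nat.floor_le (show 0 ≤ a * M / 4 by positivity)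
    linarith
  have h5 := hgrow J hJ2
  have h6 : β ^ (2 * M) ≤ 2 ^ J := by
    have e1 : β ^ (2 * M) = (2 : ℝ) ^ (a * M / 4) := by
      rw [hβ, ← Real.rpow_natCast, ← Real.rpow_mul (by norm_num)]
      congr 1
      push_cast
      ring
    rw [e1, ← Real.rpow_natCast]
    exact Real.rpow_le_rpow_of_exponent_le (by norm_num) hJ1
  have h7 := hcx M
  have h8 : β ^ (2 * M) * (c * β⁻¹ ^ M) ≤ 1 := by
    refine le_trans ?_ (hx1 (M + J))
    refine le_trans ?_ h5
    exact mul_le_mul h6 h7 (by positivity) (by positivity)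
  have h9 : β ^ (2 * M) * (c * β⁻¹ ^ M) = c * β ^ M := by
    rw [two_mul, pow_add, inv_pow]
    have : β ^ M ≠ 0 := by positivity
    field_simp
  rw [h9] at h8
  rw [div_lt_iff₀ hc] at hM1
  linarith

lemma sizes_pos' {μ : PMF ℕ} (k n0 : ℕ) (hn0 : 1 ≤ n0) (hb : 0 < bb μ k)
    (h : 0 < U μ n0) (m : ℕ) : 0 < U μ (n0 + m * (k + 1)) := by
  induction m with
  | zero => simpa using h
  | succ m ih =>
    have h1 := U_step μ k (n0 + m * (k + 1)) (by omega)
    have h2 : n0 + (m + 1) * (k + 1) = n0 + m * (k + 1) + (k + 1) := by ring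
    rw [h2]
    exact lt_of_lt_of_le (mul_pos hb ih) h1

/-- the ratio bound along all sizes -/
theorem ratio_all {μ : PMF ℕ} (hμ : IsCritical μ) (k : ℕ) (hk : μ (k + 1) ≠ 0) :
    ∃ N : ℕ, ∀ n, N ≤ n → 0 < U μ n → U μ (n + (k + 1)) ≤ 4 * U μ n := by
  have hb := bb_pos μ k (crit_zero hμ) hk
  have hr : ∀ r : ℕ, ∃ N : ℕ, ∀ n, N ≤ n → n % (k + 1) = r → 0 < U μ n →
      U μ (n + (k + 1)) ≤ 4 * U μ n := by
    intro r
    by_cases h : ∃ n0 : ℕ, 1 ≤ n0 ∧ n0 % (k + 1) = r ∧ 0 < U μ n0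
    · obtain ⟨n0, h1, h2, h3⟩ := h
      obtain ⟨N, hN⟩ := ratio_class hμ k n0 h1 hk (sizes_pos' k n0 h1 hb h3)
      refine ⟨n0 + N * (k + 1), fun n hn hnr _ => ?_⟩
      obtain ⟨m, hm⟩ : ∃ m, n = n0 + m * (k + 1) := by
        have h4 : (k + 1) ∣ n - n0 := (Nat.modEq_iff_dvd' (by omega)).1 (by
          unfold Nat.ModEq; rw [h2, hnr])
        obtain ⟨m, hm⟩ := h4
        exact ⟨m, by rw [mul_comm m, ← hm]; omega⟩
      have hmN : N ≤ m := by
        rw [hm] at hn
        have h5 : N * (k + 1) ≤ m * (k + 1) := by omega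
        exact Nat.le_of_mul_le_mul_right h5 (Nat.succ_pos k)
      have h6 := hN m hmN
      have e : n0 + (m + 1) * (k + 1) = n + (k + 1) := by rw [hm]; ring
      rw [e, ← hm] at h6
      exact h6
    · refine ⟨1, fun n hn hnr hU => ?_⟩
      exact absurd ⟨n, hn, hnr, hU⟩ h
  choose N hN using hr
  refine ⟨(Finset.range (k + 1)).sup N, fun n hn hU => ?_⟩
  refine hN (n % (k + 1)) n ?_ rfl hU
  exact (Finset.le_sup (Finset.mem_range.2 (Nat.mod_lt n (Nat.succ_pos k)))).trans hn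

end

end Pool.Agent.Y971.HG
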