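import Mathlib
import Pool.Agent.Y971.HG.Bound

open Filter

namespace Pool.Agent.Y971.HG

/-- `s` is a good shift for the set `P` and the function `f` -/
def Good (P : ℕ → Prop) (f : ℕ → ℝ) (s : ℕ) : Prop :=
  ∀ ε : ℝ, 0 < ε → ∃ N : ℕ, ∀ n : ℕ, N ≤ n → P n → P (n + s) ∧ |f (n + s) / f n - 1| < ε

lemma ratio_mul (x y ε : ℝ) (hε : 0 < ε) (h1 : ε ≤ 1) (hx : |x - 1| < ε / 4) (hy : |y - 1| < ε / 4) :
    |x * y - 1| < ε := by
  rw [abs_lt] at *
  constructor <;> nlinarith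

lemma ratio_div (x y ε : ℝ) (hε : 0 < ε) (h1 : ε ≤ 1) (hx : |x - 1| < ε / 4) (hy : |y - 1| < ε / 4) :
    |x / y - 1| < ε := by
  rw [abs_lt] at *
  have hy0 : 0 < y := by linarith
  constructor
  · have : (1 - ε) < x / y := by rw [lt_div_iff₀ hy0]; nlinarith
    linarith
  · have : x / y < 1 + ε := by rw [div_lt_iff₀ hy0]; nlinarith
    linarith

lemma Good.add {P : ℕ → Prop} {f : ℕ → ℝ} (hf : ∀ n : ℕ, 1 ≤ n → 0 < f n) {a b : ℕ}
    (ha : Good P f a) (hb : Good P f b) : Good P f (a + b) := by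
  intro ε hε
  obtain ⟨N1, h1⟩ := ha (min ε 1 / 4) (by positivity)
  obtain ⟨N2, h2⟩ := hb (min ε 1 / 4) (by positivity)
  refine ⟨max 1 (max N1 N2), fun n hn hP => ?_⟩
  have e0 : 1 ≤ n := (le_max_left _ _).trans hn
  have e1 : N1 ≤ n := (le_max_left _ _).trans ((le_max_right _ _).trans hn)
  have e2 : N2 ≤ n := (le_max_right _ _).trans ((le_max_right _ _).trans hn)
  obtain ⟨p1, q1⟩ := h1 n e1 hP
  obtain ⟨p2, q2⟩ := h2 (n + a) (by omega) p1
  rw [← Nat.add_assoc]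
  refine ⟨p2, ?_⟩
  have g1 := (hf (n + a) (by omega)).ne'
  have g2 := (hf n e0).ne'
  have e : f (n + a + b) / f n = (f (n + a + b) / f (n + a)) * (f (n + a) / f n) := by field_simp
  rw [e]
  exact lt_of_lt_of_le (ratio_mul _ _ (min ε 1) (by positivity) (min_le_right _ _) q2 q1)
    (min_le_left _ _)

/-- going back by a good shift -/
lemma Good.back {P : ℕ → Prop} {f : ℕ → ℝ} {b : ℕ} (hb1 : 1 ≤ b) (hb : Good P f b) :
    ∃ N : ℕ, ∀ n : ℕ, N ≤ n → P n → b ≤ n ∧ P (n - b) := by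
  obtain ⟨N0, h0⟩ := hb 1 one_pos
  have hup : ∀ n m : ℕ, N0 ≤ n → P n → P (n + m * b) := by
    intro n m hn hP
    induction m with
    | zero => simpa using hP
    | succ m ih =>
      have := (h0 (n + m * b) (by omega) ih).1
      have e : n + (m + 1) * b = n + m * b + b := by ring
      rwa [e]
  have hr : ∀ r : ℕ, ∃ N : ℕ, ∀ n : ℕ, N ≤ n → n % b = r → P n → b ≤ n ∧ P (n - b) := by
    intro r
    by_cases h : ∃ n0 : ℕ, N0 ≤ n0 ∧ n0 % b = r ∧ P n0
    · obtain ⟨n0, h1, h2, h3⟩ := h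
      refine ⟨n0 + b, fun n hn hnr _ => ⟨by omega, ?_⟩⟩
      obtain ⟨m, hm⟩ : ∃ m, n = n0 + m * b := by
        have h4 : b ∣ n - n0 := (Nat.modEq_iff_dvd' (by omega)).1 (by
          unfold Nat.ModEq; rw [h2, hnr])
        obtain ⟨m, hm⟩ := h4
        exact ⟨m, by rw [mul_comm m, ← hm]; omega⟩
      have hm1 : 1 ≤ m := by
        by_contra hcon
        have : m = 0 := by omega
        subst this
        omega
      have e : n - b = n0 + (m - 1) * b := by
        have : m * b = (m - 1) * b + b := by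
          obtain ⟨m', rfl⟩ : ∃ m', m = m' + 1 := ⟨m - 1, by omega⟩
          simp; ring
        omega
      rw [e]
      exact hup n0 (m - 1) h1 h3
    · refine ⟨N0, fun n hn hnr hP => ?_⟩
      exact absurd ⟨n, hn, hnr, hP⟩ h
  choose N hN using hr
  refine ⟨(Finset.range b).sup N, fun n hn hP => ?_⟩
  refine hN (n % b) n ?_ rfl hP
  exact (Finset.le_sup (Finset.mem_range.2 (Nat.mod_lt n hb1))).trans hn

lemma Good.sub {P : ℕ → Prop} {f : ℕ → ℝ} (hf : ∀ n : ℕ, 1 ≤ n → 0 < f n) {a b : ℕ} (hb1 : 1 ≤ b)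
    (hab : b ≤ a) (ha : Good P f a) (hb : Good P f b) : Good P f (a - b) := by
  intro ε hε
  obtain ⟨N0, h0⟩ := hb.back hb1
  obtain ⟨N1, h1⟩ := ha (min ε 1 / 4) (by positivity)
  obtain ⟨N2, h2⟩ := hb (min ε 1 / 4) (by positivity)
  refine ⟨N0 + N1 + N2 + b + 1, fun n hn hP => ?_⟩
  obtain ⟨e0, p0⟩ := h0 n (by omega) hP
  obtain ⟨p1, q1⟩ := h1 (n - b) (by omega) p0
  obtain ⟨p2, q2⟩ := h2 (n - b) (by omega) p0
  have e1 : n - b + a = n + (a - b) := by omega
  have e2 : n - b + b = n := by omega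
  rw [e1] at p1 q1
  rw [e2] at q2
  refine ⟨p1, ?_⟩
  have g1 := (hf (n - b) (by omega)).ne'
  have g2 := (hf n (by omega)).ne'
  have e : f (n + (a - b)) / f n = (f (n + (a - b)) / f (n - b)) / (f n / f (n - b)) := by field_simp
  rw [e]
  exact lt_of_lt_of_le (ratio_div _ _ (min ε 1) (by positivity) (min_le_right _ _) q1 q2)
    (min_le_left _ _)

lemma Good.mul {P : ℕ → Prop} {f : ℕ → ℝ} (hf : ∀ n : ℕ, 1 ≤ n → 0 < f n) {d : ℕ}
    (hd : Good P f d) (q : ℕ) (hq : 1 ≤ q) : Good P f (q * d) := by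
  induction q with
  | zero => omega
  | succ q ih =>
    rcases Nat.eq_zero_or_pos q with h | h
    · subst h; simpa using hd
    · have := (ih h).add hf hd
      have e : (q + 1) * d = q * d + d := by ring
      rwa [e]

/-- the greatest common divisor of a set of good shifts is a good shift -/
theorem exists_span {P : ℕ → Prop} {f : ℕ → ℝ} (hf : ∀ n : ℕ, 1 ≤ n → 0 < f n) (S : ℕ → Prop)
    (hS : ∀ k : ℕ, 1 ≤ k → S k → Good P f k) (hne : ∃ k : ℕ, 1 ≤ k ∧ S k) :
    ∃ d : ℕ, 1 ≤ d ∧ (∀ k : ℕ, S k → d ∣ k) ∧ Good P f d := by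
  classical
  have hex : ∃ d : ℕ, 1 ≤ d ∧ Good P f d := by
    obtain ⟨k, h1, h2⟩ := hne
    exact ⟨k, h1, hS k h1 h2⟩
  obtain ⟨h1, h2⟩ := Nat.find_spec hex
  refine ⟨Nat.find hex, h1, fun k hk => ?_, h2⟩
  set d := Nat.find hex with hd
  rcases Nat.eq_zero_or_pos k with h | h
  · subst h; exact dvd_zero _
  · have hk' := hS k h hk
    by_contra hcon
    have hr : 1 ≤ k % d := by
      rcases Nat.eq_zero_or_pos (k % d) with h5 | h5
      · exact absurd (Nat.dvd_of_mod_eq_zero h5) hcon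
      · exact h5
    have hlt : k % d < d := Nat.mod_lt k h1
    have hgood : Good P f (k % d) := by
      rcases Nat.eq_zero_or_pos (k / d) with h5 | h5
      · have e := Nat.div_add_mod k d
        rw [h5, mul_zero, zero_add] at e
        rw [e]; exact hk'
      · have e := Nat.div_add_mod k d
        have e2 : k % d = k - (k / d) * d := by
          rw [mul_comm] at e; omega
        rw [e2]
        refine Good.sub hf ?_ (Nat.div_mul_le_self k d) hk' (h2.mul hf (k / d) h5)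
        exact Nat.mul_pos h5 h1
    exact Nat.find_min hex hlt ⟨hr, hgood⟩

end Pool.Agent.Y971.HG
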